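import Mathlib
import Pool.Agent.H77.TF.Def
import Pool.Agent.H77.TF.Def2
import Pool.Agent.H77.TF.Def3
import Pool.Agent.H77.TF.Stm
import Pool.Agent.H77.TF.Stm2
import Pool.Agent.H77.TF.Stm3

/-!
# Project TD: a numerical criterion for freeness of arrangements of planes in `F_q ^ 3`. Statements

`q = Fintype.card K`, `n = Fintype.card ν`, `Q = ∏ i, lin (A i)`, `P e = (e + 2).choose 2`,
`H e = finrank K (VD A e)`, `s = 2 q + 1 - n`. `uncD A` is the number of the uncovered points of the
projective plane, `Pts A` the set of the vectors `x ∈ K ^ 3` on no plane of `A`.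
All modules of helper77's projects TF, TG, TC may be used (as hypotheses `S_PRI`, … or by importing them).
-/

set_option autoImplicit false

open MvPolynomial Module Pool.Agent.H77.TF

namespace Pool.Agent.H79.TD

/-- The forms of degree `e` which vanish at all uncovered points. -/
def VD {K : Type} [Field K] {ν : Type} (A : ν → Fin 3 → K) (e : ℕ) :
    Submodule K (MvPolynomial (Fin 3) K) where
  carrier := {f | f.IsHomogeneous e ∧ ∀ x ∈ Pts A, eval x f = 0}
  zero_mem' := ⟨isHomogeneous_zero _ _ _, fun x _ => by simp⟩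
  add_mem' := by
    rintro f g ⟨hf, hf'⟩ ⟨hg, hg'⟩
    exact ⟨hf.add hg, fun x hx => by rw [map_add, hf' x hx, hg' x hx, add_zero]⟩
  smul_mem' := by
    rintro c f ⟨hf, hf'⟩
    refine ⟨?_, fun x hx => by rw [smul_eval, hf' x hx, mul_zero]⟩
    rw [smul_eq_C_mul]
    simpa using (isHomogeneous_C (Fin 3) c).mul hf

/-- `R` is a set of representatives of the uncovered points. -/
def IsRep {K : Type} [Field K] {ν : Type} (A : ν → Fin 3 → K) (R : Finset (Fin 3 → K)) : Prop :=
  (∀ x ∈ R, x ∈ Pts A) ∧ (∀ x ∈ Pts A, ∃ r ∈ R, ∃ c : K, c ≠ 0 ∧ x = c • r) ∧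
    ∀ r ∈ R, ∀ s ∈ R, ∀ c : K, r = c • s → r = s

/-- DIM. Proof: the monomials; stars and bars. (Perhaps already in the library: search finrank homogeneousSubmodule.) -/
def S_DIM : Prop :=
  ∀ (K : Type) [Field K] (e : ℕ), Module.Finite K (homogeneousSubmodule (Fin 3) K e) ∧
    finrank K (homogeneousSubmodule (Fin 3) K e) = (e + 2).choose 2

/-- REP. Proof: a two-dimensional `W ⊆ K ^ 3` is the orthogonal complement of an `x ≠ 0`, unique up to
scalars, and no `A i` is in `W` iff `x ∈ Pts A` (see helper27's Pl3.lean: exists_normal, …); choose one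
`x` for every missed `W` (`ν` is not empty, so `0 ∉ Pts A`). -/
def S_REP : Prop :=
  ∀ (K : Type) [Field K] [Fintype K] (ν : Type) [Fintype ν] [Nonempty ν] (A : ν → Fin 3 → K),
    ∃ R : Finset (Fin 3 → K), R.card = uncD A ∧ IsRep A R

/-- SUM. Proof: `∑_{x ∈ K ^ 3} F(x) = 0` (`MvPolynomial.sum_eval_eq_zero`, degree `2 (q - 1) < 3 (q - 1)`);
only `x ∈ Pts A` contribute, `F(c x) = c ^ (2 (q - 1)) F(x) = F(x)` for `c ≠ 0`, so `0 = (q - 1) ∑_R F(r)`
and `q - 1 = -1` in `K`. (See helper27's Pl3.lean.) -/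
def S_SUM : Prop :=
  ∀ (K : Type) [Field K] [Fintype K] (ν : Type) [Fintype ν] [Nonempty ν] (A : ν → Fin 3 → K)
    (R : Finset (Fin 3 → K)), IsRep A R → ∀ F : MvPolynomial (Fin 3) K,
      F.IsHomogeneous (2 * (Fintype.card K - 1)) → (∀ x, x ∉ Pts A → eval x F = 0) →
      ∑ r ∈ R, eval r F = 0

/-- DU3 (duality). Proof (from DIM, REP, SUM): let `ev_e : S_e → K ^ R` be the evaluation at `R`; its kernel is
`VD A e` (homogeneity), so its rank is `P e - H e`, at most `card R`: first part. For the second part the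
subspaces `ev_e (S_e)` and `Q · ev_e' (S_e')` of `K ^ R` are orthogonal (`g h Q` is homogeneous of degree
`e + e' + n = 2 (q - 1)` and vanishes outside of `Pts A` because of `Q`; SUM), and the second one has the
dimension `P e' - H e'` since `Q` does not vanish on `R`. Orthogonal subspaces of `K ^ R` for the standard
bilinear form have dimensions with sum at most `card R`. -/
def S_DU3 : Prop :=
  ∀ (K : Type) [Field K] [Fintype K] (ν : Type) [Fintype ν] [Nonempty ν] (A : ν → Fin 3 → K) (e : ℕ),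
    (e + 2).choose 2 ≤ uncD A + finrank K (VD A e) ∧
    ∀ e' : ℕ, e + e' + Fintype.card ν + 2 = 2 * Fintype.card K →
      (e + 2).choose 2 + (e' + 2).choose 2 ≤ uncD A + finrank K (VD A e) + finrank K (VD A e')

/-- COR. Proof: `f = f₁ h`, `g = g₁ h` with `f₁`, `g₁` relatively prime (UFD). `g₁ φ_i = f₁ ψ_i`, so `φ = f₁ χ`,
`f₁ D3 χ = D3 φ = f₁ h Q`, `D3 χ = h Q`. At a point of `K ^ 3` the polynomial `D3 χ` vanishes
(`x ^ q = x`), so `h` vanishes on `Pts A`. `h` divides the nonzero form `f`, so it is homogeneous of a degree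
`k ≤ α`; by minimality `k = α`, so `f₁` is a constant and `f ∣ g`. -/
def S_COR : Prop :=
  ∀ (K : Type) [Field K] [Fintype K] (ν : Type) [Fintype ν] (A : ν → Fin 3 → K) (α : ℕ)
    (f g : MvPolynomial (Fin 3) K) (φ ψ : Fin 3 → MvPolynomial (Fin 3) K), f ≠ 0 → f ∈ VD A α →
    (∀ k < α, VD A k = ⊥) → D3 φ = f * ∏ i, lin (A i) → g • φ = f • ψ → f ∣ g

/-- BRK. Proof (from MR3, DD3, KR3, COR). If `g = 0` trivial. `f Q`, `g Q` vanish on `K ^ 3`, so by MR3 (and DD3)
there are `φ`, `ψ` with `D3 φ = f Q`, `D3 ψ = g Q`, homogeneous of degrees `α + n - (q + 1)`, `e + n - (q + 1)`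
(no truncation, MR3), in `LD A`. Choose `i` and subtract multiples of `θ_0` so that `evl (A i) φ = evl (A i) ψ = 0` (see
the proof of CIB). `y = g φ - f ψ` has `D3 y = 0` and is homogeneous of degree `e + α + n - (q + 1) < q`. By KR3
`y = a θ_0 + γ θ_1`; taking homogeneous components of degree `deg y < q` in `y = a θ_0 + γ θ_1` gives
`y = a' θ_0`; `evl (A i)`: `0 = a' lin (A i)`, so `y = 0`. Apply COR. -/
def S_BRK : Prop :=
  ∀ (K : Type) [Field K] [Fintype K] (ν : Type) [Fintype ν] [Nonempty ν] (A : ν → Fin 3 → K) (α e : ℕ)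
    (f g : MvPolynomial (Fin 3) K), Simple A → f ≠ 0 → f ∈ VD A α → (∀ k < α, VD A k = ⊥) →
    g ∈ VD A e → e + α + Fintype.card ν ≤ 2 * Fintype.card K → f ∣ g

/-- FRE. Proof (from MR3, DD3, KR3, SAI, PRI, COR), as CIB. `φ`, `ψ` as in BRK, homogeneous of degrees
`u + n - (q + 1) = q - w` and `q - u`, normalised. `y = g φ - f ψ` is homogeneous of degree `q`, `D3 y = 0`, so
`y = a θ_0 + γ θ_1`, `γ ∈ K`. If `γ = 0` then `y = 0` as in BRK and `f ∣ g` by COR, contradiction. So `γ ≠ 0`, and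
`f det(θ_0, φ, ψ) = ± det(θ_0, φ, y) = ± γ det(θ_0, φ, θ_1) = ± γ f Q`; cancel `f` and apply SAI to `θ_0, φ, ψ`. -/
def S_FRE : Prop :=
  ∀ (K : Type) [Field K] [Fintype K] (ν : Type) [Fintype ν] [Nonempty ν] (A : ν → Fin 3 → K) (u w : ℕ)
    (f g : MvPolynomial (Fin 3) K), Simple A → f ≠ 0 → f ∈ VD A u → (∀ k < u, VD A k = ⊥) →
    g ∈ VD A w → ¬ f ∣ g → u + w + Fintype.card ν = 2 * Fintype.card K + 1 →
    HasExp A ![1, Fintype.card K - w, Fintype.card K - u]

/-- INQ. Let `β = s - α`. Proof (from DIM, DU3, BRK). `β = 0` trivial. `β = 1`: DU3, first part, `e = α - 1`, `H e = 0`: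
`uncD A ≥ α (α + 1) / 2 ≥ α`. `β ≥ 2`: DU3, second part, `e = α - 1`, `e' = β - 2`, `H (α - 1) = 0`, and by BRK every
`g ∈ VD A (β - 2)` is a multiple of `f`, so `H (β - 2) ≤ P (β - 2 - α)` if `α ≤ β - 2` and `= 0` otherwise
(a multiple `g = f h` of degree `e`: take the component of `h` of degree `e - α`).
`P (α - 1) + P (β - 2) - P (β - α - 2) = α β`. -/
def S_INQ : Prop :=
  ∀ (K : Type) [Field K] [Fintype K] (ν : Type) [Fintype ν] [Nonempty ν] (A : ν → Fin 3 → K) (α β : ℕ)
    (f : MvPolynomial (Fin 3) K), Simple A → f ≠ 0 → f ∈ VD A α → (∀ k < α, VD A k = ⊥) → 1 ≤ α →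
    α + β + Fintype.card ν = 2 * Fintype.card K + 1 → α * β ≤ uncD A

/-- NUM. Proof (from DIM, DU3, INQ). First part: suppose `VD A k = ⊥` for all `k ≤ u`. If `w ≤ 2`: DU3, first part,
`e = u`: `P u ≤ u w`, false. If `w ≥ 3`: DU3, second part, `e = u`, `e' = w - 3`:
`H (w - 3) ≥ P u + P (w - 3) - u w = (m ^ 2 - 3 m + 4) / 2 ≥ 1`, `m = w - u`. So there is a smallest `α` with
`VD A α ≠ ⊥`, `u < α ≤ w - 3`; with `β = u + w - α` INQ gives `α β ≤ u w`, but
`α β - u w = (α - u) (w - α) > 0`. Second part: by the first part and minimality there is `f ≠ 0` in `VD A u`. Let all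
`g ∈ VD A w` be multiples of `f`; then `H w ≤ P (w - u)`. But `H w ≥ P w - u w` (DU3, first part) `> P (w - u)` if
`u ≤ 2`, and for `u ≥ 3`, `H w ≥ P w + P (u - 3) - u w - H (u - 3) = P (w - u) + 1` (DU3, `e = w`, `e' = u - 3`). -/
def S_NUM : Prop :=
  ∀ (K : Type) [Field K] [Fintype K] (ν : Type) [Fintype ν] [Nonempty ν] (A : ν → Fin 3 → K) (u w : ℕ),
    Simple A → 1 ≤ u → u ≤ w → u + w + Fintype.card ν = 2 * Fintype.card K + 1 → uncD A = u * w →
    (∃ k ≤ u, VD A k ≠ ⊥) ∧
    ((∀ k < u, VD A k = ⊥) → ∃ f g, f ≠ 0 ∧ f ∈ VD A u ∧ g ∈ VD A w ∧ ¬ f ∣ g)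

/-- SZB. Proof (from REP). Choose `i`, `a = A i`; if `a = 0` then `Pts A = ∅` and `uncD A = 0`. Otherwise let `a_j ≠ 0`. Every
uncovered point has exactly one representative `x` with `a ⬝ x = 1`; these `x` are
parametrised by the other two coordinates. Substituting `X_j = a_j⁻¹ (1 - ∑_{i ≠ j} a_i X_i)` in `h` gives a
polynomial `h'` of total degree at most `k` in two variables, `h' ≠ 0` because `h` is a nonzero form (its part of
degree `k` in the variables `X_i`, together with the homogenisation, is `h`: `h` is recovered from `h'` by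
`h = ∑ (component of h' of degree d) (lin a) ^ (k - d)` after the linear change of coordinates). By Schwartz-Zippel
(`MvPolynomial.schwartz_zippel_totalDegree`) `h'` has at most `k q` zeros in `K ^ 2`. -/
def S_SZB : Prop :=
  ∀ (K : Type) [Field K] [Fintype K] (ν : Type) [Fintype ν] [Nonempty ν] (A : ν → Fin 3 → K) (k : ℕ)
    (h : MvPolynomial (Fin 3) K), h ≠ 0 → h ∈ VD A k → uncD A ≤ k * Fintype.card K

/-- BEZ. Proof (from DIM, REP, GC3). `f`, `g` have no common factor, otherwise (if both are multiples of `p`) `p` divides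
all elements of `van A`, for example the three minors of GC3 (they vanish on `K ^ 3`), so it is a unit (also if `p = f`,
`g = 0`; so `f`, `g` are not `0` unless the other one is a unit, and a unit does not vanish at the points of `Pts A`). Let `e` be
large (`e ≥ u + v`, `e ≥ card R`). The evaluation `S_e → K ^ R` is surjective (products of linear forms), so
`uncD A = card R = P e - H e`. The map `S_(e-u) × S_(e-v) → VD A e`, `(a, b) ↦ a f + b g` has the kernel
`{(c g, - c f)}`, of dimension at most `P (e - u - v)`, so `H e ≥ P (e - u) + P (e - v) - P (e - u - v)`, and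
`P e - P (e - u) - P (e - v) + P (e - u - v) = u v`. -/
def S_BEZ : Prop :=
  ∀ (K : Type) [Field K] [Fintype K] (ν : Type) [Fintype ν] [Nonempty ν] (A : ν → Fin 3 → K) (u v : ℕ)
    (f g : MvPolynomial (Fin 3) K), (Pts A).Nonempty → f.IsHomogeneous u → g.IsHomogeneous v →
    van A = Ideal.span {f, g} → uncD A ≤ u * v

/-- CHI. Proof (from BEZ, INQ, GC3). `f ≠ 0` (otherwise `van A = (g)`, `g` divides the minors, so it is a unit by GC3, but it
vanishes at a point). A form `h` of degree `k < u` in `VD A k` is in `van A`, `h = a f + b g`, and the component of degree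
`k < u ≤ v` of the right side is `0`. `1 ≤ u` since a nonzero constant does not vanish at a point. So INQ with `α = u`,
`β = v` gives `u v ≤ uncD A`, and BEZ the other inequality. -/
def S_CHI : Prop :=
  ∀ (K : Type) [Field K] [Fintype K] (ν : Type) [Fintype ν] [Nonempty ν] (A : ν → Fin 3 → K) (u v : ℕ)
    (f g : MvPolynomial (Fin 3) K), Simple A → (Pts A).Nonempty → u ≤ v → f.IsHomogeneous u →
    g.IsHomogeneous v → u + v + Fintype.card ν = 2 * Fintype.card K + 1 → van A = Ideal.span {f, g} →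
    1 ≤ u ∧ uncD A = u * v ∧ ∀ k < u, VD A k = ⊥

/-- The final statement of project TD. -/
def S_FIN4 : Prop :=
  ∀ (K : Type) [Field K] [Fintype K],
    (∀ (n : ℕ) (A : Fin n → Fin 3 → K), 1 ≤ n → Simple A →
      (Module.Free (MvPolynomial (Fin 3) K) (LD A) → unc A = 0 ∨
        ∃ u w : ℕ, 1 ≤ u ∧ u ≤ w ∧ u + w + n = 2 * Fintype.card K + 1 ∧ unc A = u * w) ∧
      ∀ u w : ℕ, 1 ≤ u → u ≤ w → u + w + n = 2 * Fintype.card K + 1 → unc A = u * w →
        (∃ k ≤ u, ∃ f : MvPolynomial (Fin 3) K, f ≠ 0 ∧ f.IsHomogeneous k ∧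
          ∀ x ∈ Pts A, eval x f = 0) ∧
        List.TFAE [Module.Free (MvPolynomial (Fin 3) K) (LD A),
          HasExp A ![1, Fintype.card K - w, Fintype.card K - u],
          ∀ k < u, ∀ f : MvPolynomial (Fin 3) K, f.IsHomogeneous k → (∀ x ∈ Pts A, eval x f = 0) →
            f = 0] ∧
        ((Fintype.card K - w) * u < Fintype.card K →
          HasExp A ![1, Fintype.card K - w, Fintype.card K - u])) ∧
    ∀ (n m : ℕ) (A : Fin n → Fin 3 → K) (B : Fin m → Fin 3 → K), Simple A → Simple B →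
      Nonempty (Lat A ≃o Lat B) →
      ∀ u w : ℕ, 1 ≤ n → 1 ≤ u → u ≤ w → u + w + n = 2 * Fintype.card K + 1 → unc A = u * w →
        (Fintype.card K - w) * u < Fintype.card K →
        m = n ∧ HasExp A ![1, Fintype.card K - w, Fintype.card K - u] ∧
          HasExp B ![1, Fintype.card K - w, Fintype.card K - u]

end Pool.Agent.H79.TD
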