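import Mathlib
import Pool.Agent.H77.TF.Def
import Pool.Agent.H77.TF.Def2
import Pool.Agent.H77.TF.Def3
import Pool.Agent.H77.TF.Stm
import Pool.Agent.H77.TF.Stm2
import Pool.Agent.H77.TF.Stm3
import Pool.Agent.H79.TD.Stm

/-!
# Project EX: exponents `1, a, b` with `2 a ≤ b + 3`. Statements

`K` is any field in JAC, BIN, EXT, MLT, UEX. `n = Fintype.card ν`.
-/

set_option autoImplicit false

open MvPolynomial Module Pool.Agent.H77.TF

namespace Pool.Agent.H79.TD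

/-- JAC. Proof. If `v 0 = 0` or `v 1 = 0` trivial; `e = 0`: constants. Let `1 ≤ e`. Euler:
`X 0 * ∂₀ (v i) + X 1 * ∂₁ (v i) = e * v i` (Mathlib: sum_X_mul_pderiv for homogeneous polynomials). So
`e (v_0 ∂₁ v_1 - v_1 ∂₁ v_0) = X_0 (∂₀ v_0 ∂₁ v_1 - ∂₀ v_1 ∂₁ v_0) = 0`, and in the same way with `∂₀`; so
`v_0 ∂ v_1 = v_1 ∂ v_0` for both derivatives. Write `v_0 = g w_0`, `v_1 = g w_1` with `w_0`, `w_1` relatively prime (UFD), forms of
degree `k ≤ e` (a factor of a nonzero form is a form, helper6 hom_factor); then `w_0 ∂ w_1 = w_1 ∂ w_0`, so `w_0 ∣ ∂ w_0`, so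
`∂ w_0 = 0` by degrees, for both derivatives, so `k w_0 = 0` (Euler) and `k = 0`. -/
def S_JAC : Prop :=
  ∀ (K : Type) [Field K] (e : ℕ) (v : Fin 2 → MvPolynomial (Fin 2) K),
    (∀ k : ℕ, 0 < k → k ≤ e → (k : K) ≠ 0) → (∀ i, (v i).IsHomogeneous e) →
    pderiv 0 (v 0) * pderiv 1 (v 1) = pderiv 1 (v 0) * pderiv 0 (v 1) →
    ∃ c : Fin 2 → K, c ≠ 0 ∧ evl c v = 0

/-- BIN. Proof (from JAC, PRI). Let `ρ = X 0 * v 1 - X 1 * v 0` (degree `e + 1`), `J` the Jacobian determinant of `v_0`, `v_1`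
(degree `2 (e - 1)`). (1) `lin (b k) ∣ ρ`: `b_1 ρ = X_0 (b_0 v_0 + b_1 v_1) - v_0 (b_0 X_0 + b_1 X_1)` and
`- b_0 ρ = X_1 (b ⬝ v) - v_1 lin b`. (2) `lin (b k) ^ (μ k - 1) ∣ J`: `b_0 J` and `b_1 J` are the Jacobian determinants with `v_0` (`v_1`)
replaced by `b ⬝ v`, whose derivatives are divisible by `lin b ^ (μ k - 1)`. So `∏ k, lin (b k) ^ μ k`, of degree
`∑ μ k ≥ 3 e`, divides `ρ J` (the `lin (b k)` are non-associated primes, PRI), which is homogeneous of degree `3 e - 1` if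
`e ≥ 1` (`J = 0` if `e = 0`). So `J = 0` as `ρ ≠ 0`. Let `c` be as in JAC: then `v = (- c_1 ψ, c_0 ψ)` for a form `ψ ≠ 0` of degree `e`, and
`b ⬝ v = (b_1 c_0 - b_0 c_1) ψ`, so `lin (b k) ^ μ k ∣ ψ` for all `k` such that `b k` is not a multiple of `c`, that is for all
`k` except at most one `k₀`; their product divides `ψ`, so `∑_{k ≠ k₀} μ k ≤ e`. -/
def S_BIN : Prop :=
  ∀ (K : Type) [Field K] (κ : Type) [Fintype κ] (b : κ → Fin 2 → K) (μ : κ → ℕ) (e : ℕ)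
    (v : Fin 2 → MvPolynomial (Fin 2) K), Simple b → (∀ k : ℕ, 0 < k → k ≤ e → (k : K) ≠ 0) →
    (∀ i, (v i).IsHomogeneous e) → X 0 * v 1 ≠ X 1 * v 0 → (∀ k, 1 ≤ μ k) →
    (∀ k, lin (b k) ^ μ k ∣ evl (b k) v) → 3 * e ≤ ∑ k, μ k → 1 ≤ ∑ k, μ k →
    ∃ k₀, ∑ k, μ k ≤ e + μ k₀

/-- RES (restriction to a plane). Proof (from SUB, PRI). `lin (A i)` divides `evl (A i) φ`, the quotient `g` is
homogeneous of degree `e - 1` (`0` if `e = 0`); put `φ' = φ - g • θ_0`, so `evl (A i) φ' = 0`. Let `h = A i`, `h j ≠ 0`, `s, t` the other two indices,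
`ρ` from SUB (for `m = 2`), `v_l = ρ (φ' (j.succAbove l))`. `κ` is the finite set of the `W = span {h, A k}`, `k ≠ i`; for such a `W` choose
`k`, `b'_W = A k - (A k j / h j) • h` (so `b'_W j = 0`), `b_W = b'_W ∘ j.succAbove`, and `μ W` is the number of the `k ≠ i` with
`A k ∈ W`; so `∑ μ = card ν - 1`. For `A k ∈ W`, `k ≠ i`: `A k = λ b'_W + τ h`, `λ ≠ 0`, so `lin (A k)` divides `evl (b'_W) φ'`, and so does the product
(PRI); apply `ρ`: `ρ (lin (A k)) = λ lin (b_W)`, `ρ (evl (b'_W) φ') = evl (b_W) v`. Finally `X 0 * v 1 = X 1 * v 0` would give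
`lin h ∣ X_s φ_t - X_t φ_s` (SUB), and then, as `∑ h_l φ'_l = 0`, `lin h` divides all `X_r φ_l - X_l φ_r`. -/
def S_RES : Prop :=
  ∀ (K : Type) [Field K] (ν : Type) [Fintype ν] (A : ν → Fin 3 → K) (e : ℕ) (i : ν)
    (φ : Fin 3 → MvPolynomial (Fin 3) K), Simple A → φ ∈ LD A → (∀ l, (φ l).IsHomogeneous e) →
    (∃ r l, ¬ lin (A i) ∣ X r * φ l - X l * φ r) →
    ∃ (κ : Type) (_ : Fintype κ) (b : κ → Fin 2 → K) (μ : κ → ℕ) (v : Fin 2 → MvPolynomial (Fin 2) K)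
      (W : κ → Submodule K (Fin 3 → K)), Simple b ∧ (∀ l, (v l).IsHomogeneous e) ∧
      X 0 * v 1 ≠ X 1 * v 0 ∧ (∀ k, 1 ≤ μ k) ∧ (∀ k, lin (b k) ^ μ k ∣ evl (b k) v) ∧
      ∑ k, μ k + 1 = Fintype.card ν ∧ ∀ k, finrank K (W k) = 2 ∧ Nat.card {l // A l ∈ W k} = μ k + 1

/-- EXT. Proof (from RES, BIN, PRI). There is an `i` as in RES: otherwise all `lin (A i)`, hence their product (PRI), divide all
`X_r φ_l - X_l φ_r`, and one of these is not zero and homogeneous of degree `e + 1 < n`. Now RES and BIN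
(`3 e ≤ n - 1`, `1 ≤ n - 1`): `n - 1 ≤ e + μ k₀`. -/
def S_EXT : Prop :=
  ∀ (K : Type) [Field K] (ν : Type) [Fintype ν] (A : ν → Fin 3 → K) (e : ℕ)
    (φ : Fin 3 → MvPolynomial (Fin 3) K), Simple A → (∀ k : ℕ, 0 < k → k ≤ e → (k : K) ≠ 0) →
    φ ∈ LD A → (∀ i, (φ i).IsHomogeneous e) → (∃ i j, X i * φ j ≠ X j * φ i) →
    3 * e < Fintype.card ν → 2 ≤ Fintype.card ν →
    ∃ W : Submodule K (Fin 3 → K), finrank K W = 2 ∧ Fintype.card ν ≤ e + Nat.card {i // A i ∈ W}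

/-- MUL. Proof. `W` has `q + 1` points (one-dimensional subspaces); the `A i ∈ W` give
`m = Nat.card {i // A i ∈ W}` different ones. Let `h` be the product of the `lin w`, `w` representatives of the other
`q + 1 - m` points. If `x ∈ Pts A` there is a `w ∈ W`, `w ≠ 0`, with `∑ w_j x_j = 0`, and it is not proportional to an
`A i`, so `eval x h = 0`. So `h ∈ VD A (q + 1 - m)`, `h ≠ 0`, and `q + 1 - m ≥ u`. -/
def S_MUL : Prop :=
  ∀ (K : Type) [Field K] [Fintype K] (ν : Type) [Fintype ν] (A : ν → Fin 3 → K) (u : ℕ)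
    (W : Submodule K (Fin 3 → K)), Simple A → (∀ k < u, VD A k = ⊥) → finrank K W = 2 →
    Nat.card {i // A i ∈ W} + u ≤ Fintype.card K + 1

/-- MLT. Proof. `W` contains `B (β i)`, `B (β j)`, `i ≠ j`, linearly independent, so `W = span {B (β i), B (β j)}`; take
`W' = span {A i, A j}`; `β` restricts to a bijection. -/
def S_MLT : Prop :=
  ∀ (K L : Type) [Field K] [Field L] (n m : ℕ) (A : Fin n → Fin 3 → K) (B : Fin m → Fin 3 → L),
    Simple A → Simple B → ∀ β : Fin n ≃ Fin m, (∀ i j k,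
      A k ∈ Submodule.span K {A i, A j} ↔ B (β k) ∈ Submodule.span L {B (β i), B (β j)}) →
    ∀ W : Submodule L (Fin 3 → L), finrank L W = 2 → 2 ≤ Nat.card {i // B i ∈ W} →
      ∃ W' : Submodule K (Fin 3 → K), finrank K W' = 2 ∧
        Nat.card {i // A i ∈ W'} = Nat.card {i // B i ∈ W}

/-- UEX (uniqueness of the exponents). Proof. Let `c`, `c'` be the two bases. An element of `LD A` which is homogeneous of
degree `d` is a combination of the basis elements of degree at most `d` (components). If `a < a'`: if `a = 0` then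
`c 1` has degree `0 < 1, a', b'`, so it is `0`; if `a ≥ 1` then `c 0` and `c 1` are multiples of `c' 0`. Contradiction. So `a = a'` by
symmetry. If `b < b'`: if `b = 0` then `a = 0` and `c 1`, `c 2` are multiples of `c' 1`; if `b ≥ 1` then `c 0, c 1, c 2` are in the span of
`c' 0, c' 1`. Contradiction. -/
def S_UEX : Prop :=
  ∀ (K : Type) [Field K] (ν : Type) (A : ν → Fin 3 → K) (a b a' b' : ℕ), a ≤ b → a' ≤ b' →
    HasExp A ![1, a, b] → HasExp A ![1, a', b'] → a = a' ∧ b = b'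

/-- CRT. Proof (from FIN4, MR3, DD3, EXT). Let `u = q - b`, `w = q - a`. If `A` is not free then by FIN4 there is a
smallest `α < u` with `VD A α ≠ ⊥`; `0 ≠ f ∈ VD A α`; `f Q` vanishes on `K ^ 3`, so by MR3 `f Q = D3 φ`, `φ` homogeneous of degree
`e = α + n - (q + 1) ≤ a - 1`, `φ ∈ LD A` (DD3). `3 e < n` since `2 a ≤ b + 3`. EXT gives `W` with at least
`n - e ≥ b + 2` members, contradiction. -/
def S_CRT : Prop :=
  ∀ (K : Type) [Field K] [Fintype K] (n : ℕ) (A : Fin n → Fin 3 → K) (a b : ℕ), Simple A → a ≤ b →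
    b < Fintype.card K → n = 1 + a + b → uncD A = (Fintype.card K - a) * (Fintype.card K - b) →
    2 * a ≤ b + 3 → (∀ k : ℕ, 0 < k → k < a → (k : K) ≠ 0) →
    (∀ W : Submodule K (Fin 3 → K), finrank K W = 2 → Nat.card {i // A i ∈ W} ≤ b + 1) →
    HasExp A ![1, a, b]

/-- TRF: the transfer in terms of the relation. Proof (from CRT, MUL, MLT, UEX, LT2, FIN4, FIN3). -/
def S_TRF : Prop :=
  ∀ (K : Type) [Field K] [Fintype K] (n m : ℕ) (A : Fin n → Fin 3 → K) (B : Fin m → Fin 3 → K),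
    Simple A → Simple B → ∀ β : Fin n ≃ Fin m, (∀ i j k,
      A k ∈ Submodule.span K {A i, A j} ↔ B (β k) ∈ Submodule.span K {B (β i), B (β j)}) →
    ∀ a b : ℕ, a ≤ b → 2 * a ≤ b + 3 → (Nat.Prime (Fintype.card K) ∨ a ≤ ringChar K) →
      HasExp A ![1, a, b] → HasExp B ![1, a, b]

/-- The final statement of project EX for finite fields. -/
def S_FIN5 : Prop :=
  ∀ (K : Type) [Field K] [Fintype K] (a b : ℕ), a ≤ b → 2 * a ≤ b + 3 →
    (Nat.Prime (Fintype.card K) ∨ a ≤ ringChar K) →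
    (∀ (n : ℕ) (A : Fin n → Fin 3 → K), Simple A → b < Fintype.card K → n = 1 + a + b →
      unc A = (Fintype.card K - a) * (Fintype.card K - b) →
      (Module.Free (MvPolynomial (Fin 3) K) (LD A) ↔
        ∀ W : Submodule K (Fin 3 → K), finrank K W = 2 → Nat.card {i // A i ∈ W} ≤ b + 1)) ∧
    ∀ (n m : ℕ) (A : Fin n → Fin 3 → K) (B : Fin m → Fin 3 → K), Simple A → Simple B →
      Nonempty (Lat A ≃o Lat B) → HasExp A ![1, a, b] → m = n ∧ HasExp B ![1, a, b]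

end Pool.Agent.H79.TD
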