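import Mathlib
import Pool.Agent.H77.TF.Def
import Pool.Agent.H77.TF.Stm
import Pool.Agent.H77.GR.Stm
import Pool.Agent.H79.TD.Stm2

/-!
# Project EX over the rational numbers: statements
-/

set_option autoImplicit false

open MvPolynomial Module Pool.Agent.H77.TF Pool.Agent.H77.GR

namespace Pool.Agent.H79.TD

/-- SAC (converse of Saito's criterion, any field). Proof (from PRI, DET). Let `δ` be the determinant, `Q = ∏ lin (A i)`. `Q ∣ δ`
(DET, PRI), `δ = Q τ` (`δ ≠ 0` since the basis is linearly independent and `LD A` contains `Q ∂_j`, or from the next step).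
For `i : ν` let `P = ∏_{k ≠ i} lin (A k)`, `σ₁, σ₂` constant vectors spanning the orthogonal complement of `A i`, `η` a constant
vector with `A i ⬝ η = 1`. The fields `P σ₁`, `P σ₂`, `Q η` are in `LD A` and their determinant is
`const * P ^ 2 * Q`, `const ≠ 0`, a multiple of `δ = Q τ` (coefficients in the basis). So `τ ∣ P ^ 2`. If `π` is a prime factor
of `τ` then `π` divides some `lin (A k)`, so it is associated to it, and for `i = k` we get `lin (A k) ∣ P ^ 2`, a contradiction to
PRI (Simple). So `τ` is a unit, a nonzero constant. If `ν` is empty then `LD A` is everything and `δ` divides `1`. -/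
def S_SAC : Prop :=
  ∀ (K : Type) [Field K] (ν : Type) [Fintype ν] (A : ν → Fin 3 → K), Simple A →
    ∀ b : Basis (Fin 3) (MvPolynomial (Fin 3) K) (LD A),
      ∃ c : K, c ≠ 0 ∧ (Matrix.of fun k => (b k : Fin 3 → MvPolynomial (Fin 3) K)).det =
        C c * ∏ i, lin (A i)

/-- RDC (reduction of a basis). Proof (from SAC, SAI). `∑ e j = n` by the degrees in SAC (`δ ≠ 0`). Multiply the basis by an integer `N ≥ 1`
so that it has integral coefficients: `V j` over `ℤ`, homogeneous of degree `e j`. There are nonzero integers with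
`M * det V = D * ∏ linR (A i)` (SAC; `ℤ[X] → ℚ[X]` is injective) and `M_ij * evlR (A i) (V j) = linR (A i) * G_ij`. Let `t` be the product of
all `M`, `D`, `M_ij` (absolute values). If `p` does not divide `t`, then over `k` the images of the `V j` are in `LD`, and their
determinant is a nonzero constant times the product: SAI. -/
def S_RDC : Prop :=
  ∀ (n : ℕ) (A : Fin n → Fin 3 → ℤ) (e : Fin 3 → ℕ), Simple (mapA (Int.castRingHom ℚ) A) →
    HasExp (mapA (Int.castRingHom ℚ) A) e → ∑ j, e j = n ∧
    ∃ t : ℕ, t ≠ 0 ∧ ∀ (k : Type) [Field k] (p : ℕ) [Fact p.Prime] [CharP k p], ¬ p ∣ t →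
      Simple (mapA (Int.castRingHom k) A) → HasExp (mapA (Int.castRingHom k) A) e

/-- GOD (almost all primes are good). Proof: `t` is the product of the absolute values of all nonzero minors of order
1, 2, 3 of the matrices formed by the `A i` (a suitable nonzero coefficient of every `A i`, a suitable nonzero 2-minor for every pair
`i ≠ j`, all nonzero determinants of triples). -/
def S_GOD : Prop :=
  ∀ (n : ℕ) (A : Fin n → Fin 3 → ℤ), Simple (mapA (Int.castRingHom ℚ) A) →
    ∃ t : ℕ, t ≠ 0 ∧ ∀ (R : Type) [CommRing R] [IsDomain R] [IsLocalRing R] (p : ℕ) [Fact p.Prime]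
      [CharP (IsLocalRing.ResidueField R) p], ¬ p ∣ t → Good (mapA (Int.castRingHom R) A)

/-- DVQ. Proof: `R = Localization.AtPrime (Ideal.span {(p : ℤ)})`
(`IsLocalization.AtPrime.isDiscreteValuationRing_of_dedekind_domain`, `IsLocalization.AtPrime.equivQuotMaximalIdeal`,
`IsFractionRing.isFractionRing_of_isDomain_of_isLocalization`); or any other construction. -/
def S_DVQ : Prop :=
  ∀ (p : ℕ) [Fact p.Prime], ∃ (R : Type) (_ : CommRing R) (_ : IsDomain R)
    (_ : IsDiscreteValuationRing R) (_ : Algebra R ℚ) (_ : IsFractionRing R ℚ)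
    (_ : Fintype (IsLocalRing.ResidueField R)),
    CharP (IsLocalRing.ResidueField R) p ∧ Fintype.card (IsLocalRing.ResidueField R) = p

/-- SCL. Common denominators. -/
def S_SCL : Prop :=
  ∀ (n : ℕ) (A : Fin n → Fin 3 → ℚ), ∃ (A' : Fin n → Fin 3 → ℤ) (c : Fin n → ℚ), (∀ i, c i ≠ 0) ∧
    ∀ i, mapA (Int.castRingHom ℚ) A' i = c i • A i

/-- SCI. Nothing depends on the scaling of the forms. -/
def S_SCI : Prop :=
  ∀ (K : Type) [Field K] (n : ℕ) (A A' : Fin n → Fin 3 → K) (c : Fin n → K), (∀ i, c i ≠ 0) →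
    (∀ i, A' i = c i • A i) → (Simple A → Simple A') ∧ (∀ e, HasExp A e ↔ HasExp A' e) ∧
      ∀ i j k, A' k ∈ Submodule.span K {A' i, A' j} ↔ A k ∈ Submodule.span K {A i, A j}

/-- GRT: helper77's `Pool.Agent.H77.GR.transfer` as a statement. -/
def S_GRT : Prop :=
  ∀ (R : Type) [CommRing R] [IsDomain R] [IsDiscreteValuationRing R]
    (F : Type) [Field F] [Algebra R F] [IsFractionRing R F]
    (n : ℕ) (A : Fin n → Fin 3 → R), Good A → ∀ e : Fin 3 → ℕ,
    HasExp (mapA (IsLocalRing.residue R) A) e → ∑ j, e j = n → HasExp (mapA (algebraMap R F) A) e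

/-- The final statement of project EX over the rational numbers. -/
def S_FINQ : Prop :=
  ∀ (n m : ℕ) (A : Fin n → Fin 3 → ℚ) (B : Fin m → Fin 3 → ℚ), Simple A → Simple B →
    Nonempty (Lat A ≃o Lat B) → ∀ a b : ℕ, a ≤ b → 2 * a ≤ b + 3 → HasExp A ![1, a, b] →
      m = n ∧ HasExp B ![1, a, b]

end Pool.Agent.H79.TD
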