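import Mathlib
import Pool.Agent.H77.TF.Def
import Pool.Agent.H77.TF.Stm
import Pool.Agent.H79.TD.Stm
import Pool.Agent.H79.TD.Stm2

/-!
# Project SV: a larger range over prime fields. Statements

`q = Fintype.card K`, `T f = ∑ i, X i ^ q * pderiv i f`.
-/

set_option autoImplicit false

open MvPolynomial Module Pool.Agent.H77.TF

namespace Pool.Agent.H79.TD

/-- The derivation `θ_1`. -/
noncomputable def TH {K : Type} [Field K] [Fintype K] (f : MvPolynomial (Fin 3) K) :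
    MvPolynomial (Fin 3) K := ∑ i, X i ^ Fintype.card K * pderiv i f

/-- NCL. Proof. `T (x_i ^ q) = 0`, so `G(x + s x ^ q) = ∑_k s ^ k / k! T^k G` (Taylor, `k! ≠ 0` for `k ≤ d`); `G ∣ T G` implies `G ∣ T^k G`, so
`G` divides `G(x + s x ^ q)` for every polynomial (fraction) `s`. Let `m` be a nonzero linear form over `K` (for example `X 0`) not
dividing `G` (else finished); `s = - m(x) / m(x) ^ q`: `G` divides `G(m ^ (q-1) x - x ^ q)` (times a power of `m`), and the vector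
`y = m ^ (q-1) x - x ^ q` satisfies `m(y) = 0`, so `G(y) = g(y)`, `g` the restriction of `G` to `m = 0`, a binary form over `K`.
(1) All irreducible factors `π` of `g` are linear over `K`: restricting to `m = 0`, `g ∣ g(x + s x ^ q)`; choose `c ∈ K ^ 2` with `g(c) ≠ 0` (exists:
`d ≤ q`) and `s = - det(x, c) / det(x, c) ^ q`; then `x + s x ^ q` is parallel to `c` and
`det(x,c) ^ (q d) g(x + s x ^ q) = ± g(c) det(x, x ^ q) ^ d`, so `π` divides `det(x,c)` or `det(x, x ^ q)`, products of `K`-linear forms.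
(2) So `g = const ∏ l_i`, and `l_i(y) = m ^ (q-1) l_i - l_i ^ q` is a product of `K`-linear forms (`T ^ q - T = ∏ (T - c)`). So the
prime `G` divides a product of `K`-linear forms. -/
def S_NCL : Prop :=
  ∀ (K : Type) [Field K] [Fintype K] (d : ℕ) (G : MvPolynomial (Fin 3) K), Irreducible G →
    G.IsHomogeneous d → (∀ k : ℕ, 0 < k → k ≤ d → (k : K) ≠ 0) → G ∣ TH G →
    ∃ a : Fin 3 → K, a ≠ 0 ∧ lin a ∣ G

/-- BZ2 (as BEZ, helper22, with tangent vectors). Proof: `e` large. The map `S_e → (R → K × K)`,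
`h ↦ (h(x), ∑ t_i ∂_i h (x))` is surjective (products of squares of linear forms through the other points and a linear form), and
`S_(e-α) × S_(e-γ) → S_e`, `(a, b) ↦ a f + b g` has its image in the kernel and has the kernel `{(c g, -c f)}`. So
`2 |R| ≤ P e - P (e-α) - P (e-γ) + P (e-α-γ) = α γ`. -/
def S_BZ2 : Prop :=
  ∀ (K : Type) [Field K] (α γ : ℕ) (f g : MvPolynomial (Fin 3) K) (R : Finset (Fin 3 → K)),
    f.IsHomogeneous α → g.IsHomogeneous γ → f ≠ 0 → g ≠ 0 → IsRelPrime f g → (∀ x ∈ R, x ≠ 0) →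
    (∀ x ∈ R, ∀ y ∈ R, ∀ c : K, x = c • y → x = y) →
    (∀ x ∈ R, eval x f = 0 ∧ eval x g = 0 ∧ ∃ t : Fin 3 → K, (∀ c : K, t ≠ c • x) ∧
      ∑ i, t i * eval x (pderiv i f) = 0 ∧ ∑ i, t i * eval x (pderiv i g) = 0) →
    2 * R.card ≤ α * γ

/-- CPT. Proof (from NCL, BZ2) with `g = TH f`, homogeneous of degree `α + q - 1`. `g ≠ 0` and `f`, `g` are relatively prime: for an irreducible
common factor `G`, `f = G h`, `T f = h T G + G T h`, `G ∤ h`, so `G ∣ T G` (and `f ∣ T f` if `T f = 0`: same argument), contradiction to NCL. At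
`x ∈ K ^ 3`: `x_i ^ q = x_i`, so `g(x) = α f(x) = 0` (Euler) and `∂_j g (x) = ∑ x_i ∂_i ∂_j f (x) = (α - 1) ∂_j f (x)`; choose `t` in the kernel of the
gradient of `f`, not a multiple of `x`. (`α = 0`: `R` is empty.) -/
def S_CPT : Prop :=
  ∀ (K : Type) [Field K] [Fintype K] (α : ℕ) (f : MvPolynomial (Fin 3) K) (R : Finset (Fin 3 → K)),
    f.IsHomogeneous α → f ≠ 0 → Squarefree f → (∀ k : ℕ, 0 < k → k ≤ α → (k : K) ≠ 0) →
    (∀ a : Fin 3 → K, a ≠ 0 → ¬ lin a ∣ f) → (∀ x ∈ R, x ≠ 0) →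
    (∀ x ∈ R, ∀ y ∈ R, ∀ c : K, x = c • y → x = y) → (∀ x ∈ R, eval x f = 0) →
    2 * R.card ≤ α * (α + Fintype.card K - 1)

/-- DCM. Proof. If `f = g ^ 2 h` then `g h` vanishes on `Pts A`, so by minimality `g` is constant; if `lin (A j) ∣ f` then the quotient vanishes on
`Pts A`. Take out the linear factors one after the other (their number is at most `α`). -/
def S_DCM : Prop :=
  ∀ (K : Type) [Field K] (n : ℕ) (A : Fin n → Fin 3 → K) (α : ℕ) (f : MvPolynomial (Fin 3) K),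
    Simple A → f ≠ 0 → f ∈ VD A α → (∀ k < α, VD A k = ⊥) →
    ∃ (r : ℕ) (M : Fin r → Fin 3 → K) (f₂ : MvPolynomial (Fin 3) K), Simple M ∧ r ≤ α ∧
      (∀ i j (c : K), M i ≠ c • A j) ∧ f = (∏ i, lin (M i)) * f₂ ∧ f₂.IsHomogeneous (α - r) ∧
      f₂ ≠ 0 ∧ Squarefree f₂ ∧ ∀ a : Fin 3 → K, a ≠ 0 → ¬ lin a ∣ f₂

/-- RS2: RES (helper53) with two more conclusions: `W` is injective and all `W k` contain `A i`. -/
def S_RS2 : Prop :=
  ∀ (K : Type) [Field K] (ν : Type) [Fintype ν] (A : ν → Fin 3 → K) (e : ℕ) (i : ν)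
    (φ : Fin 3 → MvPolynomial (Fin 3) K), Simple A → φ ∈ LD A → (∀ l, (φ l).IsHomogeneous e) →
    (∃ r l, ¬ lin (A i) ∣ X r * φ l - X l * φ r) →
    ∃ (κ : Type) (_ : Fintype κ) (b : κ → Fin 2 → K) (μ : κ → ℕ) (v : Fin 2 → MvPolynomial (Fin 2) K)
      (W : κ → Submodule K (Fin 3 → K)), Simple b ∧ (∀ l, (v l).IsHomogeneous e) ∧
      X 0 * v 1 ≠ X 1 * v 0 ∧ (∀ k, 1 ≤ μ k) ∧ (∀ k, lin (b k) ^ μ k ∣ evl (b k) v) ∧
      ∑ k, μ k + 1 = Fintype.card ν ∧ (∀ k, finrank K (W k) = 2 ∧ Nat.card {l // A l ∈ W k} = μ k + 1) ∧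
      Function.Injective W ∧ ∀ k, A i ∈ W k

/-- BI2. Proof as BIN (helper27): if the Jacobian `J` is `0`, then as there. If `J ≠ 0` (so `e ≥ 1`) it is homogeneous of degree
`2 e - 2` and divisible by `∏ lin (b k) ^ (μ k - 1)`. -/
def S_BI2 : Prop :=
  ∀ (K : Type) [Field K] (κ : Type) [Fintype κ] (b : κ → Fin 2 → K) (μ : κ → ℕ) (e : ℕ)
    (v : Fin 2 → MvPolynomial (Fin 2) K), Simple b → (∀ k : ℕ, 0 < k → k ≤ e → (k : K) ≠ 0) →
    (∀ i, (v i).IsHomogeneous e) → X 0 * v 1 ≠ X 1 * v 0 → (∀ k, 1 ≤ μ k) →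
    (∀ k, lin (b k) ^ μ k ∣ evl (b k) v) → 1 ≤ ∑ k, μ k →
    (∃ k₀, ∑ k, μ k ≤ e + μ k₀) ∨ ∑ k, μ k + 2 ≤ 2 * e + Fintype.card κ

/-- LNC. Proof (from RS2, BI2) for the arrangement `A` together with `c` (index type `Option (Fin n)`), index `none`. -/
def S_LNC : Prop :=
  ∀ (K : Type) [Field K] [Fintype K] (n : ℕ) (A : Fin n → Fin 3 → K) (c : Fin 3 → K) (e : ℕ)
    (φ : Fin 3 → MvPolynomial (Fin 3) K), 1 ≤ n → Simple A → c ≠ 0 → (∀ i (t : K), c ≠ t • A i) →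
    (∀ k : ℕ, 0 < k → k ≤ e → (k : K) ≠ 0) → φ ∈ LD A → lin c ∣ evl c φ →
    (∀ l, (φ l).IsHomogeneous e) → (∃ r l, ¬ lin c ∣ X r * φ l - X l * φ r) →
    (∃ W : Submodule K (Fin 3 → K), finrank K W = 2 ∧ n ≤ e + Nat.card {i // A i ∈ W}) ∨
      n + 2 ≤ 2 * e + Nat.card {W : Submodule K (Fin 3 → K) // finrank K W = 2 ∧ c ∈ W ∧ ∃ i, A i ∈ W}

/-- UPT. Proof: there are `q + 1` two-dimensional spaces `W ∋ c`; to `x ∈ R` with `∑ c_j x_j = 0` belongs the orthogonal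
complement of `x`, which contains `c` and no `A i`. -/
def S_UPT : Prop :=
  ∀ (K : Type) [Field K] [Fintype K] [DecidableEq K] (n : ℕ) (A : Fin n → Fin 3 → K)
    (c : Fin 3 → K) (R : Finset (Fin 3 → K)), c ≠ 0 → (∀ x ∈ R, x ∈ Pts A ∧ x ≠ 0) →
    (∀ x ∈ R, ∀ y ∈ R, ∀ t : K, x = t • y → x = y) →
    (R.filter fun x => ∑ j, c j * x j = 0).card +
      Nat.card {W : Submodule K (Fin 3 → K) // finrank K W = 2 ∧ c ∈ W ∧ ∃ i, A i ∈ W} ≤
        Fintype.card K + 1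

/-- CR8: the criterion in the larger range. -/
def S_CR8 : Prop :=
  ∀ (K : Type) [Field K] [Fintype K] (n : ℕ) (A : Fin n → Fin 3 → K) (a b t : ℕ), Simple A → a ≤ b →
    b < Fintype.card K → n = 1 + a + b → uncD A = (Fintype.card K - a) * (Fintype.card K - b) →
    2 * a ≤ b + 3 + t → t * (Fintype.card K - b) + 2 < Fintype.card K →
    2 * t ≤ Fintype.card K - b + 3 → (∀ k : ℕ, 0 < k → k < a → (k : K) ≠ 0) →
    (∀ k : ℕ, 0 < k → k < Fintype.card K - b → (k : K) ≠ 0) →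
    (∀ W : Submodule K (Fin 3 → K), finrank K W = 2 → Nat.card {i // A i ∈ W} ≤ b + 1) →
    HasExp A ![1, a, b]

end Pool.Agent.H79.TD
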