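import Mathlib
import Pool.Agent.H79.TD.Stm
import Pool.Agent.H77.TF.Fin
import Pool.Agent.H77.TF.Fin2

/-!
# Project TD: final assembly
-/

set_option autoImplicit false

open MvPolynomial Module Pool.Agent.H77.TF

namespace Pool.Agent.H79.TD

variable {K : Type} [Field K] {ν : Type}

theorem mem_VD {A : ν → Fin 3 → K} {e : ℕ} {f : MvPolynomial (Fin 3) K} :
    f ∈ VD A e ↔ f.IsHomogeneous e ∧ ∀ x ∈ Pts A, eval x f = 0 := Iff.rfl

theorem VD_eq_bot {A : ν → Fin 3 → K} {e : ℕ} :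
    VD A e = ⊥ ↔ ∀ f : MvPolynomial (Fin 3) K, f.IsHomogeneous e → (∀ x ∈ Pts A, eval x f = 0) → f = 0 := by
  rw [Submodule.eq_bot_iff]
  constructor
  · intro h f h1 h2
    exact h f ⟨h1, h2⟩
  · intro h f hf
    exact h f hf.1 hf.2

theorem exists_of_VD_ne_bot {A : ν → Fin 3 → K} {e : ℕ} (h : VD A e ≠ ⊥) :
    ∃ f : MvPolynomial (Fin 3) K, f ≠ 0 ∧ f.IsHomogeneous e ∧ ∀ x ∈ Pts A, eval x f = 0 := by
  obtain ⟨f, hf, hf0⟩ := (Submodule.ne_bot_iff _).1 h
  exact ⟨f, hf0, hf.1, hf.2⟩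

/-- Two pairs with equal sums and products. -/
theorem pair_unique {u w u' w' : ℕ} (h1 : u ≤ w) (h2 : u' ≤ w') (h3 : u + w = u' + w')
    (h4 : u * w = u' * w') : u = u' := by
  have h5 : (u : ℤ) + w = u' + w' := by exact_mod_cast h3
  have h6 : (u : ℤ) * w = u' * w' := by exact_mod_cast h4
  have h7 : ((u : ℤ) - u') * ((u : ℤ) - w') = 0 := by
    have : (w : ℤ) = u' + w' - u := by linarith
    rw [this] at h6
    linear_combination -h6
  rcases mul_eq_zero.1 h7 with h | h
  · have : (u : ℤ) = u' := by linarith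
    exact_mod_cast this
  · have h8 : (u : ℤ) = w' := by linarith
    have h9 : u = w' := by exact_mod_cast h8
    omega

theorem fin4_of (hNUM : S_NUM) (hFRE : S_FRE) (hCHI : S_CHI) (hSZB : S_SZB) (hGRD : S_GRD)
    (hCIF : S_CIF) (hBP3 : S_BP3) (hBIJ : S_BIJ) (hLT2 : S_LT2) (hDU2 : S_DU2) : S_FIN4 := by
  intro K _ _
  -- free and not empty
  have key : ∀ (n : ℕ) (A : Fin n → Fin 3 → K), 1 ≤ n → Simple A → (Pts A).Nonempty →
      Module.Free (MvPolynomial (Fin 3) K) (LD A) →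
      ∃ u w : ℕ, 1 ≤ u ∧ u ≤ w ∧ u + w + n = 2 * Fintype.card K + 1 ∧ uncD A = u * w ∧
        ∀ k < u, VD A k = ⊥ := by
    intro n A hn hA hP hF
    haveI : Nonempty (Fin n) := ⟨⟨0, hn⟩⟩
    obtain ⟨e, he⟩ := hGRD K 3 (Fin n) A hA hF
    obtain ⟨u, v, f, g, hf, hg, hd, hv⟩ := hCIF K (Fin n) A e hA hP he
    rcases le_total u v with h | h
    · obtain ⟨h1, h2, h3⟩ := hCHI K (Fin n) A u v f g hA hP h hf hg hd hv
      rw [Fintype.card_fin] at hd
      exact ⟨u, v, h1, h, hd, h2, h3⟩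
    · have hd' : v + u + Fintype.card (Fin n) = 2 * Fintype.card K + 1 := by
        rw [← hd, add_comm v u]
      have hv' : van A = Ideal.span {g, f} := by rw [hv, Set.pair_comm]
      obtain ⟨h1, h2, h3⟩ := hCHI K (Fin n) A v u g f hA hP h hg hf hd' hv'
      rw [Fintype.card_fin] at hd'
      exact ⟨v, u, h1, h, hd', h2, h3⟩
  -- nonempty
  have hne : ∀ (n : ℕ) (A : Fin n → Fin 3 → K), 1 ≤ n → uncD A ≠ 0 → (Pts A).Nonempty := by
    intro n A hn h
    haveI : Nonempty (Fin n) := ⟨⟨0, hn⟩⟩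
    by_contra hc
    rw [Set.not_nonempty_iff_eq_empty] at hc
    exact h (uncD_eq_zero.2 ((hBP3 K (Fin n) A).1 hc))
  -- no small forms imply the exponents
  have h32 : ∀ (n : ℕ) (A : Fin n → Fin 3 → K), 1 ≤ n → Simple A → ∀ u w : ℕ, 1 ≤ u → u ≤ w →
      u + w + n = 2 * Fintype.card K + 1 → uncD A = u * w → (∀ k < u, VD A k = ⊥) →
      HasExp A ![1, Fintype.card K - w, Fintype.card K - u] := by
    intro n A hn hA u w hu huw hs hunc hk
    haveI : Nonempty (Fin n) := ⟨⟨0, hn⟩⟩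
    have hs' : u + w + Fintype.card (Fin n) = 2 * Fintype.card K + 1 := by
      rw [Fintype.card_fin]; exact hs
    obtain ⟨f, g, hf0, hf, hg, hfg⟩ := (hNUM K (Fin n) A u w hA hu huw hs' hunc).2 hk
    exact hFRE K (Fin n) A u w f g hA hf0 hf hk hg hfg hs'
  -- the automatic case
  have haut : ∀ (n : ℕ) (A : Fin n → Fin 3 → K), 1 ≤ n → Simple A → ∀ u w : ℕ, 1 ≤ u → u ≤ w →
      u + w + n = 2 * Fintype.card K + 1 → uncD A = u * w →
      (Fintype.card K - w) * u < Fintype.card K →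
      HasExp A ![1, Fintype.card K - w, Fintype.card K - u] := by
    intro n A hn hA u w hu huw hs hunc hlt
    haveI : Nonempty (Fin n) := ⟨⟨0, hn⟩⟩
    refine h32 n A hn hA u w hu huw hs hunc ?_
    intro k hk
    by_contra hc
    obtain ⟨h, hh, hh0⟩ := (Submodule.ne_bot_iff _).1 hc
    have h1 := hSZB K (Fin n) A k h hh0 hh
    rw [hunc] at h1
    have h2 : k * Fintype.card K ≤ (u - 1) * Fintype.card K := Nat.mul_le_mul_right _ (by omega)
    obtain ⟨u', rfl⟩ : ∃ u', u = u' + 1 := ⟨u - 1, by omega⟩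
    rw [Nat.add_sub_cancel] at h2
    rcases le_total w (Fintype.card K) with hw | hw
    · obtain ⟨d, hd⟩ : ∃ d, Fintype.card K = w + d := ⟨Fintype.card K - w, by omega⟩
      rw [hd] at hlt h1 h2
      rw [Nat.add_sub_cancel_left] at hlt
      nlinarith
    · have hpos : 0 < Fintype.card K := Fintype.card_pos
      nlinarith
  refine ⟨fun n A hn hA => ?_, ?_⟩
  · rw [hDU2 K 3 (Fin n) A (by norm_num)]
    refine ⟨fun hF => ?_, fun u w hu huw hs hunc => ?_⟩
    · by_cases h0 : uncD A = 0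
      · exact Or.inl h0
      · obtain ⟨u, w, h1, h2, h3, h4, _⟩ := key n A hn hA (hne n A hn h0) hF
        exact Or.inr ⟨u, w, h1, h2, h3, h4⟩
    · haveI : Nonempty (Fin n) := ⟨⟨0, hn⟩⟩
      have hs' : u + w + Fintype.card (Fin n) = 2 * Fintype.card K + 1 := by
        rw [Fintype.card_fin]; exact hs
      have h0 : uncD A ≠ 0 := by
        rw [hunc]
        exact Nat.mul_ne_zero (by omega) (by omega)
      refine ⟨?_, ?_, fun h => haut n A hn hA u w hu huw hs hunc h⟩
      · obtain ⟨k, hk, hV⟩ := (hNUM K (Fin n) A u w hA hu huw hs' hunc).1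
        exact ⟨k, hk, exists_of_VD_ne_bot hV⟩
      · tfae_have 1 → 3 := by
          intro hF
          obtain ⟨u', w', h1, h2, h3, h4, h5⟩ := key n A hn hA (hne n A hn h0) hF
          have h6 : u = u' := pair_unique huw h2 (by omega) (by rw [← hunc, h4])
          subst h6
          intro k hk
          exact VD_eq_bot.1 (h5 k hk)
        tfae_have 3 → 2 := by
          intro h
          exact h32 n A hn hA u w hu huw hs hunc fun k hk => VD_eq_bot.2 (h k hk)
        tfae_have 2 → 1 := fun h => free_of_hasExp h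
        tfae_finish
  · intro n m A B hA hB hiso u w hn hu huw hs hunc hlt
    obtain ⟨β, hβ⟩ := hBIJ K 3 n m A B hA hB hiso
    have hmn : m = n := by
      have := Fintype.card_congr β
      rw [Fintype.card_fin, Fintype.card_fin] at this
      exact this.symm
    have hu' := hLT2 K 3 n m A B hA hB β hβ
    rw [hDU2 K 3 (Fin n) A (by norm_num)] at hunc
    refine ⟨hmn, haut n A hn hA u w hu huw hs hunc hlt, ?_⟩
    subst hmn
    exact haut _ B hn hB u w hu huw hs (by rw [← hu', hunc]) hlt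

end Pool.Agent.H79.TD
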