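import Mathlib
import Pool.Agent.H79.TD.Stm

/-!
# Project TD: the merged final statement (criterion and complete intersections)
-/

set_option autoImplicit false

open MvPolynomial Module Pool.Agent.H77.TF

namespace Pool.Agent.H79.TD

/-- The merged statement: FIN4 with complete intersections as a further equivalent condition. Proof: as `fin4_of`
(H79/TD/Fin.lean) with CIB, CIF, CHI: 4 → 1 by CHI and CIB, 1 → 4 by GRD, CIF, CHI (swap `f`, `g` if necessary) and
`pair_unique`. The first part: `unc A = 0` implies free by SUF (see fin3_of, H77/TF/Stm3.lean). -/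
def S_FIN6 : Prop :=
  ∀ (K : Type) [Field K] [Fintype K],
    (∀ (n : ℕ) (A : Fin n → Fin 3 → K), 1 ≤ n → Simple A →
      (Module.Free (MvPolynomial (Fin 3) K) (LD A) ↔ unc A = 0 ∨
        ∃ (u w : ℕ) (f g : MvPolynomial (Fin 3) K), 1 ≤ u ∧ u ≤ w ∧
          u + w + n = 2 * Fintype.card K + 1 ∧ f.IsHomogeneous u ∧ g.IsHomogeneous w ∧
          van A = Ideal.span {f, g}) ∧
      ∀ u w : ℕ, 1 ≤ u → u ≤ w → u + w + n = 2 * Fintype.card K + 1 →
        List.TFAE [Module.Free (MvPolynomial (Fin 3) K) (LD A) ∧ unc A = u * w,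
          HasExp A ![1, Fintype.card K - w, Fintype.card K - u] ∧ unc A = u * w,
          (∀ k < u, ∀ f : MvPolynomial (Fin 3) K, f.IsHomogeneous k → (∀ x ∈ Pts A, eval x f = 0) →
            f = 0) ∧ unc A = u * w,
          unc A ≠ 0 ∧ ∃ f g : MvPolynomial (Fin 3) K, f.IsHomogeneous u ∧ g.IsHomogeneous w ∧
            van A = Ideal.span {f, g}] ∧
        (unc A = u * w → (∃ k ≤ u, ∃ f : MvPolynomial (Fin 3) K, f ≠ 0 ∧ f.IsHomogeneous k ∧
            ∀ x ∈ Pts A, eval x f = 0) ∧
          ((Fintype.card K - w) * u < Fintype.card K →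
            HasExp A ![1, Fintype.card K - w, Fintype.card K - u]))) ∧
    ∀ (n m : ℕ) (A : Fin n → Fin 3 → K) (B : Fin m → Fin 3 → K), Simple A → Simple B →
      Nonempty (Lat A ≃o Lat B) →
      ∀ u w : ℕ, 1 ≤ n → 1 ≤ u → u ≤ w → u + w + n = 2 * Fintype.card K + 1 → unc A = u * w →
        (Fintype.card K - w) * u < Fintype.card K →
        m = n ∧ HasExp A ![1, Fintype.card K - w, Fintype.card K - u] ∧
          HasExp B ![1, Fintype.card K - w, Fintype.card K - u]

end Pool.Agent.H79.TD
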