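import Mathlib
import Pool.Agent.H79.TD.Stm
import Pool.Agent.H79.TD.Stm2
import Pool.Agent.H79.TD.Fin

/-!
# Project EX: the criterion and the transfer over a finite field
-/

set_option autoImplicit false

open MvPolynomial Module Pool.Agent.H77.TF

namespace Pool.Agent.H79.TD

variable {K : Type} [Field K]

theorem lin_hom (a : Fin 3 → K) : (lin a).IsHomogeneous 1 := by
  unfold lin
  refine IsHomogeneous.sum _ _ _ fun i _ => ?_
  simpa using (isHomogeneous_C (Fin 3) (a i)).mul (isHomogeneous_X K i)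

theorem Q_hom {ν : Type} [Fintype ν] (A : ν → Fin 3 → K) :
    (∏ i, lin (A i)).IsHomogeneous (Fintype.card ν) := by
  have h := IsHomogeneous.prod Finset.univ (fun i => lin (A i)) (fun _ => 1)
    (fun i _ => lin_hom (A i))
  simpa using h

theorem eval_lin' (a x : Fin 3 → K) : eval x (lin a) = ∑ j, a j * x j := by
  simp [lin]

theorem eval_fQ {ν : Type} [Fintype ν] {A : ν → Fin 3 → K} {k : ℕ} {f : MvPolynomial (Fin 3) K}
    (hf : f ∈ VD A k) (x : Fin 3 → K) : eval x (f * ∏ i, lin (A i)) = 0 := by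
  rw [map_mul]
  by_cases hx : x ∈ Pts A
  · rw [hf.2 x hx, zero_mul]
  · have : ∃ i, ∑ j, A i j * x j = 0 := by
      by_contra hc
      push Not at hc
      exact hx hc
    obtain ⟨i, hi⟩ := this
    rw [map_prod, Finset.prod_eq_zero (Finset.mem_univ i), mul_zero]
    rw [eval_lin', hi]

theorem lin_ne_zero (hPRI : S_PRI) {a : Fin 3 → K} (ha : a ≠ 0) : lin a ≠ 0 :=
  (hPRI K 3 a ha).1.ne_zero

theorem Q_ne_zero (hPRI : S_PRI) {ν : Type} [Fintype ν] {A : ν → Fin 3 → K} (hA : Simple A) :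
    ∏ i, lin (A i) ≠ 0 :=
  Finset.prod_ne_zero_iff.2 fun i _ => lin_ne_zero hPRI (hA.1 i)

/-- A nonzero form of degree `k` vanishing on the uncovered points gives a logarithmic field. -/
theorem exists_field [Fintype K] (hPRI : S_PRI) (hMR3 : S_MR3) (hDD3 : S_DD3) {ν : Type} [Fintype ν]
    {A : ν → Fin 3 → K} (hA : Simple A) {k : ℕ} {f : MvPolynomial (Fin 3) K} (hf0 : f ≠ 0)
    (hf : f ∈ VD A k) : Fintype.card K + 1 ≤ k + Fintype.card ν ∧
      ∃ φ ∈ LD A, (∀ i, (φ i).IsHomogeneous (k + Fintype.card ν - (Fintype.card K + 1))) ∧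
        ∃ i j, X i * φ j ≠ X j * φ i := by
  have h0 : f * ∏ i, lin (A i) ≠ 0 := mul_ne_zero hf0 (Q_ne_zero hPRI hA)
  obtain ⟨φ, h1, h2, h3⟩ := hMR3 K (f * ∏ i, lin (A i)) (k + Fintype.card ν)
    (hf.1.mul (Q_hom A)) (eval_fQ hf)
  refine ⟨h2 h0, φ, (hDD3 K ν A hA φ).2 (by rw [h1]; exact Dvd.intro_left _ rfl), h3, ?_⟩
  by_contra hc
  push Not at hc
  apply h0
  rw [← h1]
  unfold D3
  rw [Matrix.det_fin_three]
  simp only [Matrix.of_apply, Matrix.cons_val_zero, Matrix.cons_val_one, Matrix.cons_val,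
    frob, pow_zero, pow_one]
  have e1 := hc 0 1
  have e2 := hc 0 2
  have e3 := hc 1 2
  linear_combination X 2 ^ Fintype.card K * (-e1) + X 1 ^ Fintype.card K * e2 -
    X 0 ^ Fintype.card K * e3

theorem crt_of (hPRI : S_PRI) (hFIN4 : S_FIN4) (hMR3 : S_MR3) (hDD3 : S_DD3) (hEXT : S_EXT)
    (hDU2 : S_DU2) : S_CRT := by
  intro K _ _ n A a b hA hab hb hn hunc h2 hch hW
  have hn1 : 1 ≤ n := by omega
  have hunc' : unc A = (Fintype.card K - b) * (Fintype.card K - a) := by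
    rw [hDU2 K 3 (Fin n) A (by norm_num), hunc, mul_comm]
  have hs : Fintype.card K - b + (Fintype.card K - a) + n = 2 * Fintype.card K + 1 := by omega
  obtain ⟨-, hT, -⟩ := ((hFIN4 K).1 n A hn1 hA).2 (Fintype.card K - b) (Fintype.card K - a)
    (by omega) (by omega) hs hunc'
  have e1 : Fintype.card K - (Fintype.card K - a) = a := by omega
  have e2 : Fintype.card K - (Fintype.card K - b) = b := by omega
  rw [e1, e2] at hT
  by_contra hc
  have h3 : ¬ ∀ k < Fintype.card K - b, ∀ f : MvPolynomial (Fin 3) K, f.IsHomogeneous k →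
      (∀ x ∈ Pts A, eval x f = 0) → f = 0 := fun h => hc ((hT.out 1 2).2 h)
  push Not at h3
  obtain ⟨k, hk, f, hf1, hf2, hf0⟩ := h3
  obtain ⟨h4, φ, hφ, hhom, hne⟩ := exists_field hPRI hMR3 hDD3 hA hf0 (mem_VD.2 ⟨hf1, hf2⟩)
  rw [Fintype.card_fin] at h4 hhom
  set e := k + n - (Fintype.card K + 1) with he
  obtain ⟨W, hW1, hW2⟩ := hEXT K (Fin n) A e φ hA (fun l h5 h6 => hch l h5 (by omega)) hφ hhom hne
    (by rw [Fintype.card_fin]; omega) (by rw [Fintype.card_fin]; omega)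
  have := hW W hW1
  rw [Fintype.card_fin] at hW2
  omega

end Pool.Agent.H79.TD
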