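import Mathlib
import Pool.Agent.H79.TD.Stm
import Pool.Agent.H79.TD.Stm2
import Pool.Agent.H79.TD.Fin
import Pool.Agent.H79.TD.Crt

/-!
# Project EX: the transfer and the final statement over a finite field
-/

set_option autoImplicit false

open MvPolynomial Module Pool.Agent.H77.TF

namespace Pool.Agent.H79.TD

variable {K : Type} [Field K]

theorem hasExp_swap {ν : Type} {A : ν → Fin 3 → K} {x y : ℕ} (h : HasExp A ![1, x, y]) :
    HasExp A ![1, y, x] := by
  obtain ⟨b, hb⟩ := h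
  refine ⟨b.reindex (Equiv.swap 1 2), fun j i => ?_⟩
  rw [Basis.reindex_apply, Equiv.symm_swap]
  have e0 : Equiv.swap (1 : Fin 3) 2 0 = 0 := by decide
  fin_cases j
  · have := hb 0 i
    simpa [e0] using this
  · have := hb 2 i
    simpa using this
  · have := hb 1 i
    simpa using this

theorem cast_ne_zero_of [Fintype K] {a b : ℕ} (hab : a ≤ b) (hb : b < Fintype.card K)
    (h : Nat.Prime (Fintype.card K) ∨ a ≤ ringChar K) : ∀ k : ℕ, 0 < k → k < a → (k : K) ≠ 0 := by
  intro k hk hka hc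
  have h1 : ringChar K ∣ k := (ringChar.spec K k).1 hc
  have h2 : ringChar K ≤ k := Nat.le_of_dvd hk h1
  rcases h with h | h
  · have h3 : ringChar K ∣ Fintype.card K := (ringChar.spec K _).1 (Nat.cast_card_eq_zero K)
    rcases (Nat.dvd_prime h).1 h3 with h4 | h4
    · exact CharP.ringChar_ne_one h4
    · omega
  · omega

theorem exp_of_block [Fintype K] (hSUF : S_SUF) {n : ℕ} {A : Fin n → Fin 3 → K} (hA : Simple A)
    (h : uncD A = 0) : HasExp A ![1, Fintype.card K, n - 1 - Fintype.card K] := by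
  have h2 := (hSUF K 3 (Fin n) A (by norm_num) hA (uncD_eq_zero.1 h)).1
  rw [Fintype.card_fin] at h2
  have h3 : expo (Fintype.card K) 3 n = ![1, Fintype.card K, n - 1 - Fintype.card K] := by
    ext j
    fin_cases j
    · simp [expo]
    · simp [expo]
    · simp [expo, Finset.sum_range_succ, Nat.sub_sub]
  rwa [h3] at h2

/-- The numbers of a free arrangement which is not blocking. -/
theorem numbers [Fintype K] (hPRI : S_PRI) (hFIN4 : S_FIN4) (hMR3 : S_MR3) (hDD3 : S_DD3)
    (hDU2 : S_DU2) (hUEX : S_UEX) {n : ℕ} (hn : 1 ≤ n) {A : Fin n → Fin 3 → K} (hA : Simple A)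
    (h0 : uncD A ≠ 0) {a b : ℕ} (hab : a ≤ b) (he : HasExp A ![1, a, b]) :
    b < Fintype.card K ∧ n = 1 + a + b ∧ uncD A = (Fintype.card K - a) * (Fintype.card K - b) ∧
      ∀ k < Fintype.card K - b, VD A k = ⊥ := by
  have hu := hDU2 K 3 (Fin n) A (by norm_num)
  obtain ⟨h1, h2⟩ := (hFIN4 K).1 n A hn hA
  rcases h1 (free_of_hasExp he) with h3 | ⟨u, w, hu1, huw, hs, hunc⟩
  · exact absurd (hu ▸ h3) h0
  · obtain ⟨⟨k, hk, f, hf0, hf1, hf2⟩, hT, -⟩ := h2 u w hu1 huw hs hunc
    have h4 := (exists_field hPRI hMR3 hDD3 hA hf0 (mem_VD.2 ⟨hf1, hf2⟩)).1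
    rw [Fintype.card_fin] at h4
    have h5 : HasExp A ![1, Fintype.card K - w, Fintype.card K - u] :=
      (hT.out 0 1).1 (free_of_hasExp he)
    have h6 := hT.out 0 2 |>.1 (free_of_hasExp he)
    obtain ⟨h7, h8⟩ := hUEX K (Fin n) A a b _ _ hab (by omega) he h5
    have hpos : 0 < Fintype.card K := Fintype.card_pos
    have e1 : Fintype.card K - a = w := by omega
    have e2 : Fintype.card K - b = u := by omega
    refine ⟨by omega, by omega, ?_, ?_⟩
    · rw [← hu, hunc, e1, e2, mul_comm]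
    · rw [e2]
      intro k hk
      exact VD_eq_bot.2 (h6 k hk)

theorem trf_of (hPRI : S_PRI) (hFIN4 : S_FIN4) (hMR3 : S_MR3) (hDD3 : S_DD3) (hCRT : S_CRT)
    (hMUL : S_MUL) (hMLT : S_MLT) (hUEX : S_UEX) (hLT2 : S_LT2) (hDU2 : S_DU2) (hSUF : S_SUF) :
    S_TRF := by
  intro K _ _ n m A B hA hB β hβ a b hab h2 hp he
  have hmn : m = n := by
    have := Fintype.card_congr β
    rw [Fintype.card_fin, Fintype.card_fin] at this
    exact this.symm
  subst hmn
  have hu := hLT2 K 3 m m A B hA hB β hβ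
  rcases Nat.eq_zero_or_pos m with hm | hm
  · subst hm
    have : B = A := Subsingleton.elim _ _
    rw [this]
    exact he
  by_cases h0 : uncD A = 0
  · have h1 := exp_of_block hSUF hA h0
    have h3 := exp_of_block hSUF hB (hu ▸ h0)
    rcases le_total (Fintype.card K) (m - 1 - Fintype.card K) with h | h
    · obtain ⟨rfl, rfl⟩ := hUEX K (Fin m) A a b _ _ hab h he h1
      exact h3
    · obtain ⟨h4, h5⟩ := hUEX K (Fin m) A a b _ _ hab h he (hasExp_swap h1)
      rw [h4, h5]
      exact hasExp_swap h3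
  · obtain ⟨hb, hn, hunc, hV⟩ := numbers hPRI hFIN4 hMR3 hDD3 hDU2 hUEX hm hA h0 hab he
    refine hCRT K m B a b hB hab hb hn (hu ▸ hunc) h2 (cast_ne_zero_of hab hb hp) ?_
    intro W hW
    by_cases h1 : 2 ≤ Nat.card {i // B i ∈ W}
    · obtain ⟨W', hW', hc⟩ := hMLT K K m m A B hA hB β hβ W hW h1
      have := hMUL K (Fin m) A (Fintype.card K - b) W' hA hV hW'
      omega
    · omega

theorem fin5_of (hFIN4 : S_FIN4) (hCRT : S_CRT) (hMUL : S_MUL) (hTRF : S_TRF) (hBIJ : S_BIJ) (hDU2 : S_DU2) : S_FIN5 := by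
  intro K _ _ a b hab h2 hp
  refine ⟨fun n A hA hb hn hunc => ⟨fun hF W hW => ?_, fun h => ?_⟩, ?_⟩
  · have hs : Fintype.card K - b + (Fintype.card K - a) + n = 2 * Fintype.card K + 1 := by omega
    obtain ⟨-, hT, -⟩ := ((hFIN4 K).1 n A (by omega) hA).2 (Fintype.card K - b)
      (Fintype.card K - a) (by omega) (by omega) hs (by rw [hunc, mul_comm])
    have h6 := hT.out 0 2 |>.1 hF
    have := hMUL K (Fin n) A (Fintype.card K - b) W hA (fun k hk => VD_eq_bot.2 (h6 k hk)) hW
    omega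
  · refine free_of_hasExp (hCRT K n A a b hA hab hb hn ?_ h2 (cast_ne_zero_of hab hb hp) h)
    rw [← hDU2 K 3 (Fin n) A (by norm_num), hunc]
  · intro n m A B hA hB hiso he
    obtain ⟨β, hβ⟩ := hBIJ K 3 n m A B hA hB hiso
    refine ⟨?_, hTRF K n m A B hA hB β hβ a b hab h2 hp he⟩
    have := Fintype.card_congr β
    rw [Fintype.card_fin, Fintype.card_fin] at this
    exact this.symm

end Pool.Agent.H79.TD
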