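import Mathlib
import Pool.Agent.H79.TD.Stm
import Pool.Agent.H79.TD.Stm2
import Pool.Agent.H79.TD.Stm6
import Pool.Agent.H79.TD.Fin
import Pool.Agent.H79.TD.Crt
import Pool.Agent.H79.TD.Trf

/-!
# Project SV: the criterion in the larger range
-/

set_option autoImplicit false

open MvPolynomial Module Pool.Agent.H77.TF

namespace Pool.Agent.H79.TD

variable {K : Type} [Field K]

/-- The logarithmic field of a form vanishing at the uncovered points. -/
theorem exists_field2 [Fintype K] (hPRI : S_PRI) (hMR3 : S_MR3) {ν : Type} [Fintype ν]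
    {A : ν → Fin 3 → K} (hA : Simple A) {k : ℕ} {f : MvPolynomial (Fin 3) K} (hf0 : f ≠ 0)
    (hf : f ∈ VD A k) : Fintype.card K + 1 ≤ k + Fintype.card ν ∧
      ∃ φ : Fin 3 → MvPolynomial (Fin 3) K, D3 φ = f * ∏ i, lin (A i) ∧
        ∀ i, (φ i).IsHomogeneous (k + Fintype.card ν - (Fintype.card K + 1)) := by
  have h0 : f * ∏ i, lin (A i) ≠ 0 := mul_ne_zero hf0 (Q_ne_zero hPRI hA)
  obtain ⟨φ, h1, h2, h3⟩ := hMR3 K (f * ∏ i, lin (A i)) (k + Fintype.card ν)
    (hf.1.mul (Q_hom A)) (eval_fQ hf)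
  exact ⟨h2 h0, φ, h1, h3⟩

theorem D3_expand [Fintype K] (φ : Fin 3 → MvPolynomial (Fin 3) K) :
    D3 φ = X 0 ^ Fintype.card K * (X 2 * φ 1 - X 1 * φ 2) +
      X 1 ^ Fintype.card K * (X 0 * φ 2 - X 2 * φ 0) +
      X 2 ^ Fintype.card K * (X 1 * φ 0 - X 0 * φ 1) := by
  unfold D3
  rw [Matrix.det_fin_three]
  simp only [Matrix.of_apply, Matrix.cons_val_zero, Matrix.cons_val_one, Matrix.cons_val,
    frob, pow_zero, pow_one]
  ring

theorem ne_of_D3 [Fintype K] {φ : Fin 3 → MvPolynomial (Fin 3) K} (h : D3 φ ≠ 0) :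
    ∃ i j, X i * φ j ≠ X j * φ i := by
  by_contra hc
  push Not at hc
  apply h
  rw [D3_expand]
  have e1 := hc 0 1
  have e2 := hc 0 2
  have e3 := hc 1 2
  linear_combination X 2 ^ Fintype.card K * (-e1) + X 1 ^ Fintype.card K * e2 -
    X 0 ^ Fintype.card K * e3

/-- If `lin c` divides all minors of `θ_0, φ` and `D3 φ = lin c * E`, then `E` vanishes on `K ^ 3`. -/
theorem eval_zero_of_minors [Fintype K] (hPRI : S_PRI) {φ : Fin 3 → MvPolynomial (Fin 3) K}
    {c : Fin 3 → K} (hc : c ≠ 0) {E : MvPolynomial (Fin 3) K} (hE : D3 φ = lin c * E)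
    (hm : ∀ r l, lin c ∣ X r * φ l - X l * φ r) (x : Fin 3 → K) : eval x E = 0 := by
  obtain ⟨m0, h0⟩ := hm 2 1
  obtain ⟨m1, h1⟩ := hm 0 2
  obtain ⟨m2, h2⟩ := hm 1 0
  have hl : lin c ≠ 0 := lin_ne_zero hPRI hc
  have e1 : E = X 0 ^ Fintype.card K * m0 + X 1 ^ Fintype.card K * m1 +
      X 2 ^ Fintype.card K * m2 := by
    apply mul_left_cancel₀ hl
    rw [← hE, D3_expand, h0, h1, h2]
    ring
  have e2 : X 0 * m0 + X 1 * m1 + X 2 * m2 = 0 := by
    apply mul_left_cancel₀ hl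
    rw [mul_zero]
    calc lin c * (X 0 * m0 + X 1 * m1 + X 2 * m2)
        = X 0 * (lin c * m0) + X 1 * (lin c * m1) + X 2 * (lin c * m2) := by ring
      _ = 0 := by rw [← h0, ← h1, ← h2]; ring
  have e3 := congrArg (eval x) e2
  simp only [map_add, map_mul, eval_X, map_zero] at e3
  rw [e1]
  simp only [map_add, map_mul, map_pow, eval_X, FiniteField.pow_card]
  exact e3

theorem simple_sum {n r : ℕ} {A : Fin n → Fin 3 → K} {M : Fin r → Fin 3 → K} (hA : Simple A)
    (hM : Simple M) (h : ∀ i j (c : K), M i ≠ c • A j) : Simple (Sum.elim A M) := by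
  refine ⟨?_, ?_⟩
  · rintro (i | i)
    · exact hA.1 i
    · exact hM.1 i
  · rintro (i | i) (j | j) hij c
    · exact hA.2 i j (fun h' => hij (by rw [h'])) c
    · intro hc
      simp only [Sum.elim_inl, Sum.elim_inr] at hc
      have hc0 : c ≠ 0 := by
        rintro rfl
        rw [zero_smul] at hc
        exact hA.1 i hc
      exact h j i c⁻¹ (by rw [hc, smul_smul, inv_mul_cancel₀ hc0, one_smul])
    · exact h i j c
    · exact hM.2 i j (fun h' => hij (by rw [h'])) c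

theorem card_sum_le {n r : ℕ} (A : Fin n → Fin 3 → K) (M : Fin r → Fin 3 → K)
    (W : Submodule K (Fin 3 → K)) :
    Nat.card {s // Sum.elim A M s ∈ W} ≤ Nat.card {i // A i ∈ W} + r := by
  classical
  have h1 : Nat.card {s // Sum.elim A M s ∈ W} =
      Nat.card ({i // A i ∈ W} ⊕ {j // M j ∈ W}) := by
    refine Nat.card_congr ?_
    exact Equiv.subtypeSum (p := fun s => Sum.elim A M s ∈ W)
  rw [h1, Nat.card_sum]
  have h2 : Nat.card {j // M j ∈ W} ≤ Nat.card (Fin r) :=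
    Nat.card_le_card_of_injective _ Subtype.val_injective
  rw [Nat.card_fin] at h2
  omega

theorem arith {u b a k r t tp : ℤ} (htp : tp = 2 * a - b - 3) (ht : tp ≤ t) (hu : 1 ≤ u)
    (hab : a ≤ b) (hk : 1 ≤ k) (hka : k ≤ a) (hr : 0 ≤ r) (hr2 : r ≤ tp + 2 - 3 * k)
    (h1 : t * u + 2 < u + b) (h2 : 2 * t ≤ u + 3)
    (h : 2 * (u + b - a) * u ≤ 2 * (r * (u + a - 2 - 2 * k)) +
      (u - k - r) * (u - k - r + (u + b) - 1)) : False := by
  have key : 2 * (u + b - a) * u - (2 * (r * (u + a - 2 - 2 * k)) +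
      (u - k - r) * (u - k - r + (u + b) - 1)) =
      (u + b - 2 - u * tp) + (k - 1) * (3 * u + b - k - 2) + r * (u - tp + 2 * k - r) := by
    subst htp
    ring
  have h3 : 0 ≤ (k - 1) * (3 * u + b - k - 2) := mul_nonneg (by linarith) (by linarith)
  have h4 : 0 ≤ r * (u - tp + 2 * k - r) := mul_nonneg hr (by linarith)
  have h5 : u * tp ≤ t * u := by
    rw [mul_comm t u]
    exact mul_le_mul_of_nonneg_left ht (by linarith)
  linarith

end Pool.Agent.H79.TD
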