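import Mathlib
import Pool.Agent.H79.TD.Cr8

/-!
# Project SV: the criterion in the larger range, assembly
-/

set_option autoImplicit false

open MvPolynomial Module Pool.Agent.H77.TF

namespace Pool.Agent.H79.TD

theorem cr8_of (hPRI : S_PRI) (hFIN4 : S_FIN4) (hMR3 : S_MR3) (hDD3 : S_DD3) (hEXT : S_EXT)
    (hDU2 : S_DU2) (hREP : S_REP) (hCPT : S_CPT) (hDCM : S_DCM) (hLNC : S_LNC) (hUPT : S_UPT) :
    S_CR8 := by
  classical
  intro K _ _ n A a b t hA hab hb hn hunc h2 ht1 ht2 hch1 hch2 hW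
  have hn1 : 1 ≤ n := by omega
  haveI : Nonempty (Fin n) := ⟨⟨0, hn1⟩⟩
  have hunc' : unc A = (Fintype.card K - b) * (Fintype.card K - a) := by
    rw [hDU2 K 3 (Fin n) A (by norm_num), hunc, mul_comm]
  have hs : Fintype.card K - b + (Fintype.card K - a) + n = 2 * Fintype.card K + 1 := by omega
  obtain ⟨-, hT, -⟩ := ((hFIN4 K).1 n A hn1 hA).2 (Fintype.card K - b) (Fintype.card K - a)
    (by omega) (by omega) hs hunc'
  have e1 : Fintype.card K - (Fintype.card K - a) = a := by omega
  have e2 : Fintype.card K - (Fintype.card K - b) = b := by omega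
  rw [e1, e2] at hT
  by_contra hc
  have h3 : ¬ ∀ k < Fintype.card K - b, ∀ f : MvPolynomial (Fin 3) K, f.IsHomogeneous k →
      (∀ x ∈ Pts A, eval x f = 0) → f = 0 := fun h => hc ((hT.out 1 2).2 h)
  have h4 : ∃ k, VD A k ≠ ⊥ := by
    push Not at h3
    obtain ⟨k, hk, f, hf1, hf2, hf0⟩ := h3
    exact ⟨k, fun h => hf0 (VD_eq_bot.1 h f hf1 hf2)⟩
  set α := Nat.find h4 with hα
  have hαne : VD A α ≠ ⊥ := Nat.find_spec h4
  have hmin : ∀ k < α, VD A k = ⊥ := fun k hk => by
    by_contra h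
    exact Nat.find_min h4 hk h
  have hαu : α < Fintype.card K - b := by
    push Not at h3
    obtain ⟨k, hk, f, hf1, hf2, hf0⟩ := h3
    exact lt_of_le_of_lt (Nat.find_min' h4 fun h => hf0 (VD_eq_bot.1 h f hf1 hf2)) hk
  obtain ⟨f, hf, hf0⟩ := (Submodule.ne_bot_iff _).1 hαne
  obtain ⟨r, M, f₂, hM, hrα, hMA, hfM, hf2h, hf20, hsq, hnl⟩ := hDCM K n A α f hA hf0 hf hmin
  obtain ⟨h5, φ, hD, hhom⟩ := exists_field2 hPRI hMR3 hA hf0 hf
  rw [Fintype.card_fin] at h5 hhom
  have hQ0 := Q_ne_zero hPRI hA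
  have hD0 : D3 φ ≠ 0 := by
    rw [hD]
    exact mul_ne_zero hf0 hQ0
  have hne := ne_of_D3 hD0
  have hφ : φ ∈ LD A := (hDD3 K (Fin n) A hA φ).2 (by rw [hD]; exact Dvd.intro_left _ rfl)
  obtain ⟨e, he⟩ : ∃ e, e = α + n - (Fintype.card K + 1) := ⟨_, rfl⟩
  rw [← he] at hhom
  have hea : e + 1 ≤ a := by omega
  have hche : ∀ k : ℕ, 0 < k → k ≤ e → (k : K) ≠ 0 := fun k h6 h7 => hch1 k h6 (by omega)
  -- multiplicities
  have hbig : ∀ W : Submodule K (Fin 3 → K), finrank K W = 2 →
      ¬ n ≤ e + Nat.card {i // A i ∈ W} := by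
    intro W hW1 h
    have := hW W hW1
    omega
  -- the number of lines
  have hr3 : n + r ≤ 3 * e := by
    by_contra hlt
    have hS := simple_sum hA hM hMA
    have hφ' : φ ∈ LD (Sum.elim A M) := by
      refine (hDD3 K (Fin n ⊕ Fin r) _ hS φ).2 ?_
      rw [hD, hfM, Fintype.prod_sum_type]
      simp only [Sum.elim_inl, Sum.elim_inr]
      exact ⟨f₂, by ring⟩
    obtain ⟨W, hW1, hW2⟩ := hEXT K (Fin n ⊕ Fin r) _ e φ hS hche hφ' hhom hne
      (by rw [Fintype.card_sum, Fintype.card_fin, Fintype.card_fin]; omega)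
      (by rw [Fintype.card_sum, Fintype.card_fin, Fintype.card_fin]; omega)
    rw [Fintype.card_sum, Fintype.card_fin, Fintype.card_fin] at hW2
    have h6 := card_sum_le A M W
    exact hbig W hW1 (by omega)
  -- representatives
  obtain ⟨R, hRc, hR1, hR2, hR3⟩ := hREP K (Fin n) A
  have hx0 : ∀ x ∈ R, x ≠ 0 := by
    intro x hx h
    have := hR1 x hx ⟨0, hn1⟩
    rw [h] at this
    simp at this
  -- every line
  have hline : ∀ i, (R.filter fun x => ∑ j, M i j * x j = 0).card + (n + 2) ≤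
      Fintype.card K + 1 + 2 * e := by
    intro i
    have h7 := hUPT K n A (M i) R (hM.1 i) (fun x hx => ⟨hR1 x hx, hx0 x hx⟩) hR3
    have hfi : f = lin (M i) * ((∏ j ∈ Finset.univ.erase i, lin (M j)) * f₂) := by
      rw [hfM, ← Finset.mul_prod_erase Finset.univ (fun j => lin (M j)) (Finset.mem_univ i)]
      ring
    have h8 : ∃ r' l, ¬ lin (M i) ∣ X r' * φ l - X l * φ r' := by
      by_contra hcon
      push Not at hcon
      have hE : D3 φ = lin (M i) * (((∏ j ∈ Finset.univ.erase i, lin (M j)) * f₂) *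
          ∏ i, lin (A i)) := by
        rw [hD]
        nth_rewrite 1 [hfi]
        ring
      have h9 := eval_zero_of_minors hPRI (hM.1 i) hE hcon
      have hdeg : ((∏ j ∈ Finset.univ.erase i, lin (M j)) * f₂).IsHomogeneous (α - 1) := by
        have h10 := (IsHomogeneous.prod (Finset.univ.erase i) (fun j => lin (M j)) (fun _ => 1)
          (fun j _ => lin_hom (M j))).mul hf2h
        have hr0 : 1 ≤ r := by
          have := i.2
          omega
        have h11 : ∑ _j ∈ Finset.univ.erase i, 1 + (α - r) = α - 1 := by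
          rw [Finset.sum_const, Finset.card_erase_of_mem (Finset.mem_univ i), Finset.card_univ,
            Fintype.card_fin, smul_eq_mul, mul_one]
          omega
        rwa [h11] at h10
      have hα1 : 1 ≤ α := by
        have := i.2
        omega
      have h12 := VD_eq_bot.1 (hmin (α - 1) (by omega)) _ hdeg (by
        intro x hx
        have h13 := h9 x
        rw [map_mul] at h13
        rcases mul_eq_zero.1 h13 with h14 | h14
        · exact h14
        · exfalso
          rw [map_prod, Finset.prod_eq_zero_iff] at h14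
          obtain ⟨j, -, hj⟩ := h14
          rw [eval_lin'] at hj
          exact hx j hj)
      apply hf0
      rw [hfi, h12, mul_zero]
    have h15 : lin (M i) ∣ evl (M i) φ := by
      have hS := simple_sum hA hM hMA
      have hφ' : φ ∈ LD (Sum.elim A M) := by
        refine (hDD3 K (Fin n ⊕ Fin r) _ hS φ).2 ?_
        rw [hD, hfM, Fintype.prod_sum_type]
        simp only [Sum.elim_inl, Sum.elim_inr]
        exact ⟨f₂, by ring⟩
      exact hφ' (Sum.inr i)
    rcases hLNC K n A (M i) e φ hn1 hA (hM.1 i) (fun j c => hMA i j c) hche hφ h15 hhom h8 with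
      ⟨W, hW1, hW2⟩ | h16
    · exact absurd hW2 (hbig W hW1)
    · omega
  -- the points not on the lines
  set R' := R.filter fun x => ∀ i, ∑ j, M i j * x j ≠ 0 with hR'
  have hR'c : 2 * R'.card ≤ (α - r) * ((α - r) + Fintype.card K - 1) := by
    refine hCPT K (α - r) f₂ R' hf2h hf20 hsq (fun k h6 h7 => hch2 k h6 (by omega)) hnl ?_ ?_ ?_
    · exact fun x hx => hx0 x (Finset.mem_filter.1 hx).1
    · exact fun x hx y hy c h => hR3 x (Finset.mem_filter.1 hx).1 y (Finset.mem_filter.1 hy).1 c h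
    · intro x hx
      obtain ⟨hx1, hx2⟩ := Finset.mem_filter.1 hx
      have h17 : eval x f = 0 := hf.2 x (hR1 x hx1)
      rw [hfM, map_mul] at h17
      rcases mul_eq_zero.1 h17 with h18 | h18
      · exfalso
        rw [map_prod, Finset.prod_eq_zero_iff] at h18
        obtain ⟨j, -, hj⟩ := h18
        rw [eval_lin'] at hj
        exact hx2 j hj
      · exact h18
  have hcov : R.card ≤ R'.card + ∑ i : Fin r, (R.filter fun x => ∑ j, M i j * x j = 0).card := by
    have h19 : R ⊆ R' ∪ Finset.univ.biUnion fun i : Fin r =>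
        R.filter fun x => ∑ j, M i j * x j = 0 := by
      intro x hx
      rw [Finset.mem_union]
      by_cases h20 : ∀ i, ∑ j, M i j * x j ≠ 0
      · exact Or.inl (Finset.mem_filter.2 ⟨hx, h20⟩)
      · push Not at h20
        obtain ⟨i, hi⟩ := h20
        exact Or.inr (Finset.mem_biUnion.2 ⟨i, Finset.mem_univ i, Finset.mem_filter.2 ⟨hx, hi⟩⟩)
    refine (Finset.card_le_card h19).trans ((Finset.card_union_le _ _).trans ?_)
    exact Nat.add_le_add_left Finset.card_biUnion_le _
  -- arithmetic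
  have hsum : ((∑ i : Fin r, (R.filter fun x => ∑ j, M i j * x j = 0).card : ℕ) : ℤ) ≤
      (r : ℤ) * ((Fintype.card K : ℤ) + 2 * e - n - 1) := by
    push_cast
    have h21 : ∀ i : Fin r, (((R.filter fun x => ∑ j, M i j * x j = 0).card : ℕ) : ℤ) ≤
        (Fintype.card K : ℤ) + 2 * e - n - 1 := by
      intro i
      have := hline i
      omega
    refine (Finset.sum_le_sum fun i _ => h21 i).trans ?_
    rw [Finset.sum_const, Finset.card_univ, Fintype.card_fin, nsmul_eq_mul]
  obtain ⟨u, hu⟩ : ∃ u : ℤ, u = (Fintype.card K : ℤ) - b := ⟨_, rfl⟩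
  obtain ⟨k, hk⟩ : ∃ k : ℤ, k = (a : ℤ) - e := ⟨_, rfl⟩
  have hαk : (α : ℤ) = u - k := by omega
  have hRc' : (R.card : ℤ) = (u + b - a) * u := by
    rw [hRc, hunc, Nat.cast_mul, Nat.cast_sub (by omega), Nat.cast_sub (by omega), hu]
    ring
  have hR'c' : 2 * (R'.card : ℤ) ≤ (u - k - r) * (u - k - r + (u + b) - 1) := by
    have h22 : ((2 * R'.card : ℕ) : ℤ) ≤ (((α - r) * ((α - r) + Fintype.card K - 1) : ℕ) : ℤ) := by
      exact_mod_cast hR'c
    have hq1 : 1 ≤ Fintype.card K := Fintype.card_pos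
    rw [Nat.cast_mul, Nat.cast_mul, Nat.cast_sub (by omega : 1 ≤ (α - r) + Fintype.card K),
      Nat.cast_add, Nat.cast_sub hrα, hαk] at h22
    have hq : (Fintype.card K : ℤ) = u + b := by omega
    rw [hq] at h22
    push_cast at h22
    linarith
  have hcov' : (R.card : ℤ) ≤ R'.card +
      ((∑ i : Fin r, (R.filter fun x => ∑ j, M i j * x j = 0).card : ℕ) : ℤ) := by
    exact_mod_cast hcov
  have hlin : (Fintype.card K : ℤ) + 2 * e - n - 1 = u + a - 2 - 2 * k := by omega
  rw [hlin] at hsum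
  refine arith (u := u) (b := b) (a := a) (k := k) (r := r) (t := t) (tp := 2 * a - b - 3) rfl
    (by omega) (by omega) (by omega) (by omega) (by omega) (by omega) (by omega) ?_ ?_ ?_
  · have h23 : ((t * (Fintype.card K - b) + 2 : ℕ) : ℤ) < ((Fintype.card K : ℕ) : ℤ) := by
      exact_mod_cast ht1
    rw [Nat.cast_add, Nat.cast_mul, Nat.cast_sub (by omega)] at h23
    rw [hu]
    push_cast at h23
    linarith
  · omega
  · rw [hRc'] at hcov'
    linarith

end Pool.Agent.H79.TD
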