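import Mathlib
import Pool.Agent.H79.TD.Stm2
import Pool.Agent.H79.TD.Stm6
import Pool.Agent.H79.TD.Trf

/-!
# Project SV: the final statement
-/

set_option autoImplicit false

open MvPolynomial Module Pool.Agent.H77.TF

namespace Pool.Agent.H79.TD

/-- The final statement of project SV. -/
def S_FIN8 : Prop :=
  ∀ (K : Type) [Field K] [Fintype K] (a b t : ℕ), a ≤ b → b < Fintype.card K → 2 * a ≤ b + 3 + t →
    t * (Fintype.card K - b) + 2 < Fintype.card K → 2 * t ≤ Fintype.card K - b + 3 →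
    (Nat.Prime (Fintype.card K) ∨ a ≤ ringChar K ∧ Fintype.card K - b ≤ ringChar K) →
    (∀ (n : ℕ) (A : Fin n → Fin 3 → K), Simple A → n = 1 + a + b →
      unc A = (Fintype.card K - a) * (Fintype.card K - b) →
      (Module.Free (MvPolynomial (Fin 3) K) (LD A) ↔
        ∀ W : Submodule K (Fin 3 → K), finrank K W = 2 → Nat.card {i // A i ∈ W} ≤ b + 1)) ∧
    ∀ (n m : ℕ) (A : Fin n → Fin 3 → K) (B : Fin m → Fin 3 → K), Simple A → Simple B →
      Nonempty (Lat A ≃o Lat B) → HasExp A ![1, a, b] → m = n ∧ HasExp B ![1, a, b]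

theorem cast_ne_zero_of2 {K : Type} [Field K] [Fintype K] {c : ℕ} (hc : c ≤ Fintype.card K)
    (h : Nat.Prime (Fintype.card K) ∨ c ≤ ringChar K) : ∀ k : ℕ, 0 < k → k < c → (k : K) ≠ 0 := by
  intro k hk hka hcon
  have h1 : ringChar K ∣ k := (ringChar.spec K k).1 hcon
  have h2 : ringChar K ≤ k := Nat.le_of_dvd hk h1
  rcases h with h | h
  · have h3 : ringChar K ∣ Fintype.card K := (ringChar.spec K _).1 (Nat.cast_card_eq_zero K)
    rcases (Nat.dvd_prime h).1 h3 with h4 | h4
    · exact CharP.ringChar_ne_one h4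
    · omega
  · omega

theorem fin8_of (hPRI : S_PRI) (hFIN4 : S_FIN4) (hMR3 : S_MR3) (hDD3 : S_DD3) (hCR8 : S_CR8)
    (hMUL : S_MUL) (hMLT : S_MLT) (hUEX : S_UEX) (hLT2 : S_LT2) (hDU2 : S_DU2) (hSUF : S_SUF)
    (hBIJ : S_BIJ) : S_FIN8 := by
  intro K _ _ a b t hab hb h2 ht1 ht2 hp
  have hch1 : ∀ k : ℕ, 0 < k → k < a → (k : K) ≠ 0 :=
    cast_ne_zero_of2 (by omega) (hp.imp id fun h => h.1)
  have hch2 : ∀ k : ℕ, 0 < k → k < Fintype.card K - b → (k : K) ≠ 0 :=
    cast_ne_zero_of2 (by omega) (hp.imp id fun h => h.2)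
  refine ⟨fun n A hA hn hunc => ⟨fun hF W hW => ?_, fun h => ?_⟩, ?_⟩
  · have hs : Fintype.card K - b + (Fintype.card K - a) + n = 2 * Fintype.card K + 1 := by omega
    obtain ⟨-, hT, -⟩ := ((hFIN4 K).1 n A (by omega) hA).2 (Fintype.card K - b)
      (Fintype.card K - a) (by omega) (by omega) hs (by rw [hunc, mul_comm])
    have h6 := hT.out 0 2 |>.1 hF
    have := hMUL K (Fin n) A (Fintype.card K - b) W hA (fun k hk => VD_eq_bot.2 (h6 k hk)) hW
    omega
  · refine free_of_hasExp (hCR8 K n A a b t hA hab hb hn ?_ h2 ht1 ht2 hch1 hch2 h)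
    rw [← hDU2 K 3 (Fin n) A (by norm_num), hunc]
  · intro n m A B hA hB hiso he
    obtain ⟨β, hβ⟩ := hBIJ K 3 n m A B hA hB hiso
    have hmn : m = n := by
      have := Fintype.card_congr β
      rw [Fintype.card_fin, Fintype.card_fin] at this
      exact this.symm
    refine ⟨hmn, ?_⟩
    subst hmn
    have hu := hLT2 K 3 m m A B hA hB β hβ
    rcases Nat.eq_zero_or_pos m with hm | hm
    · subst hm
      have : B = A := Subsingleton.elim _ _
      rw [this]
      exact he
    by_cases h0 : uncD A = 0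
    · exfalso
      have h1 := exp_of_block hSUF hA h0
      rcases le_total (Fintype.card K) (m - 1 - Fintype.card K) with h | h
      · have := hUEX K (Fin m) A a b _ _ hab h he h1
        omega
      · have := hUEX K (Fin m) A a b _ _ hab h he (hasExp_swap h1)
        omega
    · obtain ⟨-, hn, hunc, hV⟩ := numbers hPRI hFIN4 hMR3 hDD3 hDU2 hUEX hm hA h0 hab he
      refine hCR8 K m B a b t hB hab hb hn (hu ▸ hunc) h2 ht1 ht2 hch1 hch2 ?_
      intro W hW
      by_cases h1 : 2 ≤ Nat.card {i // B i ∈ W}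
      · obtain ⟨W', hW', hc⟩ := hMLT K K m m A B hA hB β hβ W hW h1
        have := hMUL K (Fin m) A (Fintype.card K - b) W' hA hV hW'
        omega
      · omega

end Pool.Agent.H79.TD
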