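import Mathlib
import Pool.Agent.H77.TF.Def
import Pool.Agent.H77.TF.Stm
import Pool.Agent.H77.GR.Stm
import Pool.Agent.H79.TD.Stm2
import Pool.Agent.H79.TD.Stm3

/-!
# Project EX over arbitrary fields: statements

`Dat A e` are the data of Saito's criterion; they can be moved along ring homomorphisms.
-/

set_option autoImplicit false

open MvPolynomial Module Pool.Agent.H77.TF Pool.Agent.H77.GR

namespace Pool.Agent.H79.TD

/-- The data of Saito's criterion over a commutative ring. -/
def Dat {S : Type} [CommRing S] {n : ℕ} (A : Fin n → Fin 3 → S) (e : Fin 3 → ℕ) : Prop :=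
  ∃ (V : Fin 3 → Fin 3 → MvPolynomial (Fin 3) S) (c : S), IsUnit c ∧
    (∀ j i, (V j i).IsHomogeneous (e j)) ∧ (∀ j i, linR (A i) ∣ evlR (A i) (V j)) ∧
    (Matrix.of V).det = C c * ∏ i, linR (A i)

/-- DTF. Proof: SAC and SAI. -/
def S_DTF : Prop :=
  ∀ (K : Type) [Field K] (n : ℕ) (A : Fin n → Fin 3 → K) (e : Fin 3 → ℕ), Simple A →
    (HasExp A e ↔ Dat A e)

/-- DMP. Proof: apply the homomorphism to all polynomials. -/
def S_DMP : Prop :=
  ∀ (S T : Type) [CommRing S] [CommRing T] (f : S →+* T) (n : ℕ) (A : Fin n → Fin 3 → S)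
    (e : Fin 3 → ℕ), Dat A e → Dat (mapA f A) e

/-- DPR (products). Proof: assemble the polynomials over the `k x` (homogeneous of the fixed degree `e j`, so there are
finitely many monomials) to polynomials over the product. The cofactors: if `linR a * G = H` and `H` is homogeneous of degree
`d`, then `linR a * G' = H` for the homogeneous component `G'` of `G` of degree `d - 1` (`H = 0` if `d = 0`), so they can be assembled
too. Equalities over the product can be checked over every `k x` (coefficients). -/
def S_DPR : Prop :=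
  ∀ (Λ : Type) (k : Λ → Type) [∀ x, CommRing (k x)] (n : ℕ) (A : Fin n → Fin 3 → ∀ x, k x)
    (e : Fin 3 → ℕ), (∀ x, Dat (fun i j => A i j x) e) → Dat A e

/-- FLD. Proof: let `M` be the image of the nonzero elements of `R` in `S`, a multiplicative set which does not contain `0`. The
localisation of `S` at `M` is not the zero ring; let `κ` be its quotient by a maximal ideal: the nonzero elements of `R` become
units. -/
def S_FLD : Prop :=
  ∀ (R S : Type) [CommRing R] [IsDomain R] [CommRing S] (f : R →+* S), Function.Injective f →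
    ∃ (κ : Type) (_ : Field κ) (g : S →+* κ), Function.Injective (g.comp f)

/-- DSC (descent along field extensions). Proof (from SAC, SAI, PRI, DET). The fields in `LD` over `L` which are homogeneous of
degree `d` are linear combinations over `L` of such fields over `K`: for a basis `(x_s)` of `L` over `K` write `v = ∑ x_s v_s`
coefficientwise (`v_s` over `K`), `evl (A i) v = ∑ x_s evl (A i) (v_s)`, and `lin (A i) ∣ ∑ x_s w_s` implies `lin (A i) ∣ w_s` (use the
remainders after substitution of the pivot variable, or SUB). So let `b_0, b_1, b_2` be the basis over `L`; its determinant is not `0`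
and by multilinearity one of the determinants of fields `v_0, v_1, v_2` over `K` of degrees `e 0`, `e 1`, `e 2` is not `0`. It is divisible by the
product of the forms (DET, PRI) and homogeneous of degree `∑ e j`, which is `n` (SAC over `L`), so it is a nonzero
constant times the product: SAI. -/
def S_DSC : Prop :=
  ∀ (K L : Type) [Field K] [Field L] (f : K →+* L) (n : ℕ) (A : Fin n → Fin 3 → K) (e : Fin 3 → ℕ),
    Simple A → HasExp (mapA f A) e → HasExp A e

/-- RNG. Proof: `R = ` the subring generated by `s` (`Subring.closure s`, or `Algebra.adjoin ℤ s`), of finite type over `ℤ`, so it is a Jacobson ring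
(`isJacobsonRing_of_finiteType`), its residue fields are of finite type over `ℤ`, so finite over `ℤ`
(`finite_of_finite_type_of_isJacobsonRing`), so finite; in the Jacobson domain `R` the intersection of the maximal ideals
is `0`. -/
def S_RNG : Prop :=
  ∀ (F : Type) [Field F] (s : Finset F), ∃ R : Subring F, (↑s : Set F) ⊆ R ∧
    (∀ m : Ideal R, m.IsMaximal → Finite (R ⧸ m)) ∧
    ∀ x : R, x ≠ 0 → ∃ m : Ideal R, m.IsMaximal ∧ x ∉ m

/-- RLP (the relation and determinants). Proof: as PAT (helper91). -/
def S_RLP : Prop :=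
  ∀ (K : Type) [Field K] (ν : Type) (A : ν → Fin 3 → K), Simple A → ∀ i j k,
    A k ∈ Submodule.span K {A i, A j} ↔
      (i = j ∧ k = i) ∨ (i ≠ j ∧ (Matrix.of ![A i, A j, A k]).det = 0)

/-- SPD (spreading out). Proof (from RNG). Let `V`, `c`, and cofactors `G i j` be as in `Dat A e`. Let `s` be the finite set of all
coefficients of the `A i`, `B i`, `V j i`, `G i j`, of `c`, `c⁻¹`, of the inverse of a nonzero coefficient of every `A i`, `B i`, of the
inverse of a nonzero 2-minor of `A i, A j` (`B i, B j`) for all `i ≠ j`, of the inverses of all nonzero determinants of triples of the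
`A i` (`B i`), and of the inverses of the `(k : F)`, `0 < k < a`. Take `R` from RNG. Nonzero elements with an inverse in `R` are
not in any maximal ideal. Polynomials over `F` with coefficients in `R` are images of polynomials over `R`
(`MvPolynomial.mem_range_map_iff_coeffs_subset` or similar), and `R[X] → F[X]` is injective. -/
def S_SPD : Prop :=
  ∀ (F : Type) [Field F] (n : ℕ) (A B : Fin n → Fin 3 → F) (e : Fin 3 → ℕ) (a : ℕ), Simple A →
    Simple B → Dat A e → (∀ k : ℕ, 0 < k → k < a → (k : F) ≠ 0) →
    ∃ (R : Subring F) (A₀ B₀ : Fin n → Fin 3 → R), mapA R.subtype A₀ = A ∧ mapA R.subtype B₀ = B ∧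
      (∀ m : Ideal R, m.IsMaximal → Finite (R ⧸ m)) ∧
      (∀ x : R, x ≠ 0 → ∃ m : Ideal R, m.IsMaximal ∧ x ∉ m) ∧ Dat A₀ e ∧
      ∀ (m : Ideal R) (k : Type) [Field k] (f : R →+* k), RingHom.ker f = m → m.IsMaximal →
        Simple (mapA f A₀) ∧ Simple (mapA f B₀) ∧
        (∀ i j l, (Matrix.of ![A₀ i, A₀ j, A₀ l]).det ∈ m → (Matrix.of ![A₀ i, A₀ j, A₀ l]).det = 0) ∧
        (∀ i j l, (Matrix.of ![B₀ i, B₀ j, B₀ l]).det ∈ m → (Matrix.of ![B₀ i, B₀ j, B₀ l]).det = 0) ∧
        ∀ l : ℕ, 0 < l → l < a → (l : k) ≠ 0

/-- The final statement of project EX for arbitrary fields. -/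
def S_FINK : Prop :=
  ∀ (K : Type) [Field K] (n m : ℕ) (A : Fin n → Fin 3 → K) (B : Fin m → Fin 3 → K), Simple A →
    Simple B → Nonempty (Lat A ≃o Lat B) → ∀ a b : ℕ, a ≤ b → 2 * a ≤ b + 3 →
    (∀ k : ℕ, 0 < k → k < a → (k : K) ≠ 0) → HasExp A ![1, a, b] → m = n ∧ HasExp B ![1, a, b]

end Pool.Agent.H79.TD
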