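import Mathlib
import Pool.Agent.H79.TD.Stm2
import Pool.Agent.H79.TD.Stm3

/-!
# Project EX: the transfer over the rational numbers
-/

set_option autoImplicit false

open MvPolynomial Module Pool.Agent.H77.TF Pool.Agent.H77.GR

namespace Pool.Agent.H79.TD

theorem mapA_map {R F ν : Type} [CommRing R] [CommRing F] (f : R →+* F) (A : ν → Fin 3 → ℤ) :
    mapA f (mapA (Int.castRingHom R) A) = mapA (Int.castRingHom F) A := by
  funext i j
  simp [mapA]

/-- The transfer over `ℚ` in terms of the relation, for integral forms. -/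
theorem transfer_int (hTRF : S_TRF) (hRDC : S_RDC) (hGOD : S_GOD) (hDVQ : S_DVQ) (hPAT : S_PAT)
    (hGRT : S_GRT) (n : ℕ) (A B : Fin n → Fin 3 → ℤ)
    (hA : Simple (mapA (Int.castRingHom ℚ) A)) (hB : Simple (mapA (Int.castRingHom ℚ) B))
    (β : Fin n ≃ Fin n) (hβ : ∀ i j k,
      mapA (Int.castRingHom ℚ) A k ∈
          Submodule.span ℚ {mapA (Int.castRingHom ℚ) A i, mapA (Int.castRingHom ℚ) A j} ↔
        mapA (Int.castRingHom ℚ) B (β k) ∈
          Submodule.span ℚ {mapA (Int.castRingHom ℚ) B (β i), mapA (Int.castRingHom ℚ) B (β j)})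
    (a b : ℕ) (hab : a ≤ b) (h2 : 2 * a ≤ b + 3) (he : HasExp (mapA (Int.castRingHom ℚ) A) ![1, a, b]) :
    HasExp (mapA (Int.castRingHom ℚ) B) ![1, a, b] := by
  obtain ⟨hs, t1, ht1, hR⟩ := hRDC n A _ hA he
  obtain ⟨t2, ht2, hGA⟩ := hGOD n A hA
  obtain ⟨t3, ht3, hGB⟩ := hGOD n B hB
  obtain ⟨p, hp1, hp2⟩ := Nat.exists_infinite_primes (t1 * t2 * t3 + 1)
  haveI : Fact p.Prime := ⟨hp2⟩
  have hpos : 0 < t1 * t2 * t3 := by positivity
  have hnd : ∀ t, t ∣ t1 * t2 * t3 → ¬ p ∣ t := by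
    intro t ht hc
    have := Nat.le_of_dvd hpos (hc.trans ht)
    omega
  have hn1 : ¬ p ∣ t1 := hnd t1 (Dvd.intro (t2 * t3) (by ring))
  have hn2 : ¬ p ∣ t2 := hnd t2 (Dvd.intro (t1 * t3) (by ring))
  have hn3 : ¬ p ∣ t3 := hnd t3 (Dvd.intro (t1 * t2) (by ring))
  obtain ⟨R, i1, i2, i3, i4, i5, i6, hch, hcard⟩ := hDVQ p
  letI := i1
  letI := i2
  letI := i3
  letI := i4
  letI := i5
  letI := i6
  letI := hch
  have gA : Good (mapA (Int.castRingHom R) A) := hGA R p hn2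
  have gB : Good (mapA (Int.castRingHom R) B) := hGB R p hn3
  obtain ⟨-, rA⟩ := hPAT R ℚ (Fin n) _ gA
  obtain ⟨-, rB⟩ := hPAT R ℚ (Fin n) _ gB
  have sA := gA.1
  have sB := gB.1
  simp only [mapA_map] at rA rB sA sB
  have eA := hR (IsLocalRing.ResidueField R) p hn1 sA
  have eB : HasExp (mapA (Int.castRingHom (IsLocalRing.ResidueField R)) B) ![1, a, b] := by
    refine hTRF (IsLocalRing.ResidueField R) n n _ _ sA sB β (fun i j k => ?_) a b hab h2
      (Or.inl (by rw [hcard]; exact hp2)) eA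
    exact (rA i j k).symm.trans ((hβ i j k).trans (rB (β i) (β j) (β k)))
  have := hGRT R ℚ n (mapA (Int.castRingHom R) B) gB ![1, a, b] (by rw [mapA_map]; exact eB) hs
  rwa [mapA_map] at this

theorem finq_of (hTRF : S_TRF) (hRDC : S_RDC) (hGOD : S_GOD) (hDVQ : S_DVQ) (hPAT : S_PAT)
    (hGRT : S_GRT) (hSCL : S_SCL) (hSCI : S_SCI) (hBIJ : S_BIJ) : S_FINQ := by
  intro n m A B hA hB hiso a b hab h2 he
  obtain ⟨β, hβ⟩ := hBIJ ℚ 3 n m A B hA hB hiso
  have hmn : m = n := by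
    have := Fintype.card_congr β
    rw [Fintype.card_fin, Fintype.card_fin] at this
    exact this.symm
  refine ⟨hmn, ?_⟩
  subst hmn
  obtain ⟨A', c, hc, hA'⟩ := hSCL m A
  obtain ⟨B', d, hd, hB'⟩ := hSCL m B
  obtain ⟨s1, s2, s3⟩ := hSCI ℚ m A _ c hc hA'
  obtain ⟨s4, s5, s6⟩ := hSCI ℚ m B _ d hd hB'
  refine (s5 _).2 ?_
  refine transfer_int hTRF hRDC hGOD hDVQ hPAT hGRT m A' B' (s1 hA) (s4 hB) β (fun i j k => ?_) a b
    hab h2 ((s2 _).1 he)
  exact (s3 i j k).trans ((hβ i j k).trans (s6 (β i) (β j) (β k)).symm)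

end Pool.Agent.H79.TD
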