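import Mathlib
import Pool.Agent.H79.TD.Trf
import Pool.Agent.H79.TD.Finq
import Pool.Agent.H77.TF.Pri
import Pool.Agent.H77.TF.Moo
import Pool.Agent.H77.TF.Det
import Pool.Agent.H77.TF.Ful
import Pool.Agent.H77.TF.Gc3
import Pool.Agent.H10.TF.Grd
import Pool.Agent.H12.TF.Cif
import Pool.Agent.H15.TF.CIB
import Pool.Agent.H22.TF.Mdt
import Pool.Agent.H27.TF.Sai
import Pool.Agent.H27.TF.Dd3
import Pool.Agent.H39.TF.Stp
import Pool.Agent.H40.TF.Bij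
import Pool.Agent.H40.TF.Lt2
import Pool.Agent.H64.TF.CFS
import Pool.Agent.H6.TC.Mr3s
import Pool.Agent.H75.TF.Suf
import Pool.Agent.H83.TF.Du2
import Pool.Agent.H91.TF.Kr3
import Pool.Agent.H77.GR.Td
import Pool.Agent.H6.GR.Fqg
import Pool.Agent.H12.GR.Dep
import Pool.Agent.H23.GR.Red
import Pool.Agent.H27.GR.Exb
import Pool.Agent.H39.GR.Pst
import Pool.Agent.H53.GR.EX1
import Pool.Agent.H57.GR.Sbr
import Pool.Agent.H66.GR.Exl
import Pool.Agent.H69.GR.Ex2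
import Pool.Agent.H83.GR.Lag
import Pool.Agent.H91.GR.Pat
import Pool.Agent.H93.GR.Kos
import Pool.Agent.H77.GR.Fin
import Pool.Agent.H6.TD.Jac
import Pool.Agent.H6.TD.Mul
import Pool.Agent.H6.TD.Sac
import Pool.Agent.H27.TD.Bin
import Pool.Agent.H39.TD.Ext
import Pool.Agent.H49.TD.Uex
import Pool.Agent.H53.TD.RES
import Pool.Agent.H64.TD.Rdc
import Pool.Agent.H69.TD.God
import Pool.Agent.H71.TD.Mlt
import Pool.Agent.H75.TD.Dvq
import Pool.Agent.H91.TD.Scl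

/-!
# Projects TD and EX: the unconditional theorems
-/

set_option autoImplicit false

open MvPolynomial Module Pool.Agent.H77.TF Pool.Agent.H77.GR

namespace Pool.Agent.H79.TD

theorem dd3 : S_DD3 := Pool.Agent.H27.TF.dd3 pri det

theorem mr3 : S_MR3 := Pool.Agent.H6.TC.mr3

theorem sai : S_SAI := Pool.Agent.H27.TF.sai pri det

theorem suf : S_SUF := Pool.Agent.H75.TF.suf pri Pool.Agent.H22.TF.mdt sai
  (Pool.Agent.H39.TF.stp (ful sai Pool.Agent.H22.TF.mdt))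

theorem bin : S_BIN := Pool.Agent.H27.TD.t_BIN Pool.Agent.H6.TD.t_JAC pri

theorem ext : S_EXT := Pool.Agent.H39.TD.t_EXT Pool.Agent.H53.TD.t_RES bin pri

theorem crt : S_CRT := crt_of pri fin4 mr3 dd3 ext Pool.Agent.H83.TF.du2

theorem trf : S_TRF := trf_of pri fin4 mr3 dd3 crt Pool.Agent.H6.TD.t_MUL
  Pool.Agent.H71.TD.t_MLT Pool.Agent.H49.TD.t_UEX Pool.Agent.H40.TF.lt2 Pool.Agent.H83.TF.du2 suf

theorem fin5 : S_FIN5 := fin5_of fin4 crt Pool.Agent.H6.TD.t_MUL trf Pool.Agent.H40.TF.bij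
  Pool.Agent.H83.TF.du2

theorem rdc : S_RDC := Pool.Agent.H64.TD.rdc Pool.Agent.H6.TD.t_SAC sai

theorem grt : S_GRT := by
  intro R _ _ _ F _ _ _ n A hA e he hs
  have hPAT : S_PAT := Pool.Agent.H91.GR.pat
  have hEX1 : S_EX1 := Pool.Agent.H53.GR.ex1 (Pool.Agent.H27.GR.exb pri)
    (Pool.Agent.H66.GR.exl Pool.Agent.H83.GR.lag)
  have hEX2 : S_EX2 := Pool.Agent.H69.GR.ex2 hEX1 hPAT
  exact transfer hEX2 (Pool.Agent.H23.GR.red Pool.Agent.H57.GR.sbr) hPAT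
    (Pool.Agent.H39.GR.pst (Pool.Agent.H12.GR.dep Pool.Agent.H93.GR.kos)) Pool.Agent.H6.GR.fqg
    R F n A hA e he hs

theorem finq : S_FINQ := finq_of trf rdc Pool.Agent.H69.TD.t_GOD Pool.Agent.H75.TD.t_DVQ
  Pool.Agent.H91.GR.pat grt Pool.Agent.H91.TD.t_SCL Pool.Agent.H69.TD.t_SCI Pool.Agent.H40.TF.bij

end Pool.Agent.H79.TD
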