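import Mathlib
import Pool.Agent.H79.TD.Stm2
import Pool.Agent.H79.TD.Stm3
import Pool.Agent.H79.TD.Stm4

/-!
# Project EX: the transfer over arbitrary fields
-/

set_option autoImplicit false

open MvPolynomial Module Pool.Agent.H77.TF Pool.Agent.H77.GR

namespace Pool.Agent.H79.TD

theorem mapA_comp {R S T ν : Type} [CommRing R] [CommRing S] [CommRing T] (f : R →+* S) (g : S →+* T)
    (A : ν → Fin 3 → R) : mapA g (mapA f A) = mapA (g.comp f) A := rfl

/-- Fields: `Simple` is preserved. -/
theorem simple_map {K L ν : Type} [Field K] [Field L] (f : K →+* L) {A : ν → Fin 3 → K}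
    (hA : Simple A) : Simple (mapA f A) := by
  refine ⟨fun i h => hA.1 i ?_, fun i j hij c hc => ?_⟩
  · funext t
    have := congrFun h t
    simpa [mapA] using this
  · have h0 : ∃ t, A j t ≠ 0 := by
      by_contra hcon
      push Not at hcon
      exact hA.1 j (funext hcon)
    obtain ⟨t, ht⟩ := h0
    have hft : f (A j t) ≠ 0 := (map_ne_zero f).2 ht
    have h1 : ∀ s, f (A i s) = c * f (A j s) := fun s => by
      have := congrFun hc s
      simpa [mapA] using this
    have h2 : c = f (A i t / A j t) := by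
      rw [map_div₀, h1 t]
      field_simp
    refine hA.2 i j hij (A i t / A j t) (funext fun s => ?_)
    apply f.injective
    rw [h1 s, h2]
    simp

/-- Fields: `Simple` is reflected. -/
theorem simple_of_simple_map {K L ν : Type} [Field K] [Field L] (f : K →+* L) {A : ν → Fin 3 → K}
    (hA : Simple (mapA f A)) : Simple A := by
  refine ⟨fun i h => hA.1 i ?_, fun i j hij c hc => hA.2 i j hij (f c) ?_⟩
  · funext t
    simp [mapA, h]
  · funext t
    simp [mapA, hc]

theorem key (hDTF : S_DTF) (hDMP : S_DMP) (hDPR : S_DPR) (hFLD : S_FLD) (hDSC : S_DSC)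
    (R : Type) [CommRing R] [IsDomain R] (n : ℕ) (B : Fin n → Fin 3 → R) (e : Fin 3 → ℕ)
    (hB : Simple (mapA (algebraMap R (FractionRing R)) B))
    (hD : ∀ m : Ideal R, m.IsMaximal → Dat (mapA (Ideal.Quotient.mk m) B) e)
    (hm : ∀ x : R, x ≠ 0 → ∃ m : Ideal R, m.IsMaximal ∧ x ∉ m) :
    HasExp (mapA (algebraMap R (FractionRing R)) B) e := by
  let f : R →+* (∀ x : {m : Ideal R // m.IsMaximal}, R ⧸ x.1) :=
    Pi.ringHom fun x => Ideal.Quotient.mk x.1
  have hf : Function.Injective f := by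
    rw [injective_iff_map_eq_zero]
    intro x hx
    by_contra hx0
    obtain ⟨m, hm1, hm2⟩ := hm x hx0
    apply hm2
    have := congrFun hx ⟨m, hm1⟩
    exact Ideal.Quotient.eq_zero_iff_mem.1 this
  have h1 : Dat (mapA f B) e := by
    refine hDPR {m : Ideal R // m.IsMaximal} (fun x => R ⧸ x.1) n _ e ?_
    intro x
    exact hD x.1 x.2
  obtain ⟨κ, iκ, g, hg⟩ := hFLD R _ f hf
  have h2 : Dat (mapA g (mapA f B)) e := hDMP _ _ g n _ e h1
  have h3 : mapA g (mapA f B) =
      mapA (IsFractionRing.lift (K := FractionRing R) hg) (mapA (algebraMap R (FractionRing R)) B) := by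
    funext i j
    simp only [mapA]
    rw [IsFractionRing.lift_algebraMap]
    rfl
  rw [h3] at h2
  refine hDSC _ _ (IsFractionRing.lift (K := FractionRing R) hg) n _ e hB ?_
  exact (hDTF κ n _ e (simple_map _ hB)).2 h2

theorem det_map {R S : Type} [CommRing R] [CommRing S] (f : R →+* S) (x y z : Fin 3 → R) :
    (Matrix.of ![fun t => f (x t), fun t => f (y t), fun t => f (z t)]).det =
      f (Matrix.of ![x, y, z]).det := by
  rw [Matrix.det_fin_three, Matrix.det_fin_three]
  simp

theorem rel_map (hRLP : S_RLP) {R k K : Type} [CommRing R] [Field k] [Field K] (f : R →+* k)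
    (g : R →+* K) (hg : Function.Injective g) {n : ℕ} (A : Fin n → Fin 3 → R)
    (h1 : Simple (mapA f A)) (h2 : Simple (mapA g A))
    (h3 : ∀ i j l, (Matrix.of ![A i, A j, A l]).det ∈ RingHom.ker f →
      (Matrix.of ![A i, A j, A l]).det = 0) (i j l : Fin n) :
    mapA f A l ∈ Submodule.span k {mapA f A i, mapA f A j} ↔
      mapA g A l ∈ Submodule.span K {mapA g A i, mapA g A j} := by
  rw [hRLP k (Fin n) _ h1, hRLP K (Fin n) _ h2]
  have e1 : (Matrix.of ![mapA f A i, mapA f A j, mapA f A l]).det =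
      f (Matrix.of ![A i, A j, A l]).det := det_map f _ _ _
  have e2 : (Matrix.of ![mapA g A i, mapA g A j, mapA g A l]).det =
      g (Matrix.of ![A i, A j, A l]).det := det_map g _ _ _
  rw [e1, e2]
  have e3 : f (Matrix.of ![A i, A j, A l]).det = 0 ↔ g (Matrix.of ![A i, A j, A l]).det = 0 := by
    constructor
    · intro h
      rw [h3 i j l h, map_zero]
    · intro h
      have : (Matrix.of ![A i, A j, A l]).det = 0 := hg (by rw [h, map_zero])
      rw [this, map_zero]
  rw [e3]

theorem fink_of (hTRF : S_TRF) (hDTF : S_DTF) (hDMP : S_DMP) (hDPR : S_DPR) (hFLD : S_FLD)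
    (hDSC : S_DSC) (hRLP : S_RLP) (hSPD : S_SPD) (hBIJ : S_BIJ) : S_FINK := by
  intro K _ n m A B hA hB hiso a b hab h2 hch he
  obtain ⟨β, hβ⟩ := hBIJ K 3 n m A B hA hB hiso
  have hmn : m = n := by
    have := Fintype.card_congr β
    rw [Fintype.card_fin, Fintype.card_fin] at this
    exact this.symm
  refine ⟨hmn, ?_⟩
  subst hmn
  obtain ⟨R, A₀, B₀, eA, eB, hfin, hmax, hDA, hgood⟩ := hSPD K m A B ![1, a, b] a hA hB
    ((hDTF K m A _ hA).1 he) hch
  have hinj : Function.Injective R.subtype := Subtype.val_injective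
  let ι : FractionRing R →+* K := IsFractionRing.lift (K := FractionRing R) hinj
  have eι : ∀ X : Fin m → Fin 3 → R, mapA ι (mapA (algebraMap R (FractionRing R)) X) =
      mapA R.subtype X := by
    intro X
    funext i j
    simp only [mapA, ι]
    rw [IsFractionRing.lift_algebraMap]
  have sB : Simple (mapA (algebraMap R (FractionRing R)) B₀) :=
    simple_of_simple_map ι (by rw [eι, eB]; exact hB)
  have hBF : HasExp (mapA (algebraMap R (FractionRing R)) B₀) ![1, a, b] := by
    refine key hDTF hDMP hDPR hFLD hDSC R m B₀ _ sB ?_ hmax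
    intro M hM
    letI : Field (R ⧸ M) := Ideal.Quotient.field M
    haveI : Finite (R ⧸ M) := hfin M hM
    letI : Fintype (R ⧸ M) := Fintype.ofFinite _
    obtain ⟨sA1, sB1, dA, dB, hl⟩ := hgood M (R ⧸ M) (Ideal.Quotient.mk M) (Ideal.mk_ker) hM
    have eA1 : HasExp (mapA (Ideal.Quotient.mk M) A₀) ![1, a, b] :=
      (hDTF (R ⧸ M) m _ _ sA1).2 (hDMP _ _ (Ideal.Quotient.mk M) m A₀ _ hDA)
    refine (hDTF (R ⧸ M) m _ _ sB1).1 ?_
    refine hTRF (R ⧸ M) m m _ _ sA1 sB1 β (fun i j k => ?_) a b hab h2 (Or.inr ?_) eA1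
    · have r1 := rel_map hRLP (Ideal.Quotient.mk M) R.subtype hinj A₀ sA1 (by rw [eA]; exact hA)
        (fun i j l h => dA i j l (by rwa [Ideal.mk_ker] at h)) i j k
      have r2 := rel_map hRLP (Ideal.Quotient.mk M) R.subtype hinj B₀ sB1 (by rw [eB]; exact hB)
        (fun i j l h => dB i j l (by rwa [Ideal.mk_ker] at h)) (β i) (β j) (β k)
      rw [eA] at r1
      rw [eB] at r2
      exact r1.trans ((hβ i j k).trans r2.symm)
    · by_contra hc
      push Not at hc
      have hp : 0 < ringChar (R ⧸ M) := by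
        rcases Nat.eq_zero_or_pos (ringChar (R ⧸ M)) with h | h
        · exfalso
          have h5 : ((Fintype.card (R ⧸ M) : ℕ) : R ⧸ M) = 0 := Nat.cast_card_eq_zero _
          rw [ringChar.spec, h, zero_dvd_iff] at h5
          exact Fintype.card_ne_zero h5
        · exact h
      exact hl _ hp hc (ringChar.Nat.cast_ringChar)
  have h7 : Dat (mapA ι (mapA (algebraMap R (FractionRing R)) B₀)) ![1, a, b] :=
    hDMP _ _ ι m _ _ ((hDTF _ m _ _ sB).1 hBF)
  rw [eι, eB] at h7
  exact (hDTF K m B _ hB).2 h7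

end Pool.Agent.H79.TD
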